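import Pool.Agent.Lib.MP_7252b7_al_h61.Defs

/-!
# The positive part: lifting covering subgroups from `N_G(P) / P`
-/

set_option autoImplicit false

namespace Pool.Agent.CoveringSubgroups

open Subgroup

variable {F : GroupClass}

/-- covering subgroups in terms of homomorphisms -/
lemma IsCovering.exists_map_eq (hiso : ∀ (G H : Type) [Group G] [Group H], (G ≃* H) → F G → F H)
    {G : Type} [Group G] {H : Subgroup G} (h : IsCovering F H) {U : Subgroup G} (hU : H ≤ U)
    {Y : Type} [Group Y] (φ : U →* Y) (hφ : Function.Surjective φ) (hY : F Y) (y : Y) :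
    ∃ u : U, (u : G) ∈ H ∧ φ u = y := by
  have hq : F (U ⧸ φ.ker) :=
    hiso _ _ (QuotientGroup.quotientKerEquivOfSurjective φ hφ).symm hY
  obtain ⟨u, rfl⟩ := hφ y
  obtain ⟨a, n, ha, hn, rfl⟩ := h.2 U hU φ.ker hq u
  refine ⟨a, ha, ?_⟩
  rw [map_mul, (MonoidHom.mem_ker).mp hn, mul_one]

/-- the same after pulling back along a surjection -/
lemma IsCovering.exists_of_comap
    (hiso : ∀ (G H : Type) [Group G] [Group H], (G ≃* H) → F G → F H)
    {L Q : Type} [Group L] [Group Q] (π : L →* Q)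
    {Hb : Subgroup Q} (hcov : IsCovering F Hb) (V : Subgroup L)
    (hV : Hb ≤ V.map π) {Y : Type} [Group Y] (φ : V →* Y) (hφ : Function.Surjective φ)
    (hker : ∀ v : V, π v = 1 → φ v = 1) (hY : F Y) (y : Y) :
    ∃ v : V, π v ∈ Hb ∧ φ v = y := by
  have hs : Function.Surjective (π.subgroupMap V) := MonoidHom.subgroupMap_surjective π V
  have hk : (π.subgroupMap V).ker ≤ φ.ker := by
    intro v hv
    rw [MonoidHom.mem_ker] at hv ⊢
    exact hker v (congrArg Subtype.val hv)
  let φ' : V.map π →* Y := MonoidHom.liftOfSurjective (π.subgroupMap V) hs ⟨φ, hk⟩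
  have hφ' : ∀ v : V, φ' (π.subgroupMap V v) = φ v := by
    intro v
    exact MonoidHom.liftOfRightInverse_comp_apply _ _ _ ⟨φ, hk⟩ v
  have hφs : Function.Surjective φ' := by
    intro z
    obtain ⟨v, rfl⟩ := hφ z
    exact ⟨_, hφ' v⟩
  obtain ⟨u, hu, hy⟩ := hcov.exists_map_eq hiso hV φ' hφs hY y
  obtain ⟨v, rfl⟩ := hs u
  exact ⟨v, hu, by rw [← hφ', hy]⟩

/-- **Frattini step.**  Let every group of `F` have a normal Sylow `p`-subgroup and let `F` be closed
under extensions of `p`-groups by groups of `F`.  If `P` is a Sylow `p`-subgroup of `G` and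
`N_G(P) / P` has an `F`-covering subgroup, so has `G`. -/
theorem hasCovering_of_normalizer {p : ℕ} [Fact p.Prime]
    (hiso : ∀ (G H : Type) [Group G] [Group H], (G ≃* H) → F G → F H)
    (hquot : ∀ (G : Type) [Group G] (N : Subgroup G) [N.Normal], F G → F (G ⧸ N))
    (hcl : ∀ (G : Type) [Group G], F G → ∀ P : Sylow p G, (P : Subgroup G).Normal)
    (hext : ∀ (G : Type) [Group G] [Finite G] (N : Subgroup G) [N.Normal], IsPGroup p N →
      F (G ⧸ N) → F G)
    {G : Type} [Group G] [Finite G] (P : Sylow p G)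
    (h : HasCovering F (normalizer ((P : Subgroup G) : Set G) ⧸
      (P : Subgroup G).subgroupOf (normalizer ((P : Subgroup G) : Set G)))) : HasCovering F G := by
  set L : Subgroup G := normalizer ((P : Subgroup G) : Set G) with hL
  obtain ⟨Hb, hHb⟩ := h
  let π : L →* L ⧸ (P : Subgroup G).subgroupOf L := QuotientGroup.mk' _
  have hπ1 : ∀ l : L, π l = 1 ↔ (l : G) ∈ (P : Subgroup G) := by
    intro l
    exact QuotientGroup.eq_one_iff l
  let HL : Subgroup L := Hb.comap π
  let H : Subgroup G := HL.map L.subtype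
  have hmemH : ∀ l : L, (l : G) ∈ H ↔ π l ∈ Hb := by
    intro l
    constructor
    · rintro ⟨l', hl', he⟩
      have : l' = l := Subtype.ext he
      rw [← this]; exact hl'
    · intro hl
      exact ⟨l, hl, rfl⟩
  have hPL : (P : Subgroup G) ≤ L := le_normalizer
  have hPH : (P : Subgroup G) ≤ H := by
    intro x hx
    have h1 := (hmemH ⟨x, hPL hx⟩).mpr (by
      rw [(hπ1 ⟨x, hPL hx⟩).mpr hx]; exact Hb.one_mem)
    exact h1
  have hFH : F H := by
    let ψ : HL →* Hb := π.subgroupComap Hb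
    have hψ : Function.Surjective ψ := by
      rintro ⟨b, hb⟩
      obtain ⟨l, rfl⟩ := QuotientGroup.mk'_surjective _ b
      exact ⟨⟨l, hb⟩, rfl⟩
    have hp : IsPGroup p ψ.ker := by
      rintro ⟨⟨l, hl⟩, hk⟩
      have h1 : (l : G) ∈ (P : Subgroup G) := by
        rw [← hπ1]
        exact congrArg Subtype.val (MonoidHom.mem_ker.mp hk)
      obtain ⟨k, hk'⟩ := P.2 ⟨l, h1⟩
      refine ⟨k, ?_⟩
      apply Subtype.ext
      apply Subtype.ext
      apply Subtype.ext
      have := congrArg Subtype.val hk'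
      simpa using this
    have h1 : F HL := hext HL ψ.ker hp
      (hiso _ _ (QuotientGroup.quotientKerEquivOfSurjective ψ hψ).symm hHb.1)
    exact hiso _ _ (HL.equivMapOfInjective L.subtype L.subtype_injective) h1
  refine ⟨H, hFH, ?_⟩
  intro U hU N hN hUN u
  have hPU : (P : Subgroup G) ≤ U := hPH.trans hU
  let PU : Sylow p U := P.subtype hPU
  let q : U →* U ⧸ N := QuotientGroup.mk' N
  have hq : Function.Surjective q := QuotientGroup.mk'_surjective N
  have hnorm : ((PU : Subgroup U).map q).Normal := by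
    have := hcl _ hUN (PU.mapSurjective hq)
    rwa [Sylow.coe_mapSurjective] at this
  let W : Subgroup U := ((PU : Subgroup U).map q).comap q
  have hW : W.Normal := hnorm.comap q
  have hPW : (PU : Subgroup U) ≤ W := le_comap_map q _
  have hfr : normalizer ((PU : Subgroup U) : Set U) ⊔ W = ⊤ := PU.normalizer_sup_eq_top' hPW
  let χ : U →* (U ⧸ N) ⧸ ((PU : Subgroup U).map q) := (QuotientGroup.mk' _).comp q
  have hY : F ((U ⧸ N) ⧸ ((PU : Subgroup U).map q)) := hquot _ _ hUN
  have hχ1 : ∀ x : U, χ x = 1 ↔ x ∈ W := by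
    intro x
    exact QuotientGroup.eq_one_iff (q x)
  have hχs : Function.Surjective χ := (QuotientGroup.mk'_surjective _).comp hq
  let V : Subgroup L := U.subgroupOf L
  let ι : V →* U :=
    { toFun := fun v => ⟨((v : L) : G), v.2⟩
      map_one' := rfl
      map_mul' := fun _ _ => rfl }
  have hV : Hb ≤ V.map π := by
    intro b hb
    obtain ⟨l, rfl⟩ := QuotientGroup.mk'_surjective _ b
    exact ⟨l, hU ((hmemH l).mpr hb), rfl⟩
  have hnor : ∀ m : U, m ∈ normalizer ((PU : Subgroup U) : Set U) → (m : G) ∈ L := by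
    intro m hm
    rw [hL, mem_normalizer_iff]
    rw [mem_normalizer_iff] at hm
    intro x
    constructor
    · intro hx
      exact (hm ⟨x, hPU hx⟩).mp hx
    · intro hx
      have hxU : x ∈ U := by
        have h1 := U.mul_mem (U.mul_mem (U.inv_mem m.2) (hPU hx)) m.2
        have e : (m : G)⁻¹ * (m * x * (m : G)⁻¹) * m = x := by group
        rwa [e] at h1
      exact (hm ⟨x, hxU⟩).mpr hx
  have hφs : Function.Surjective (χ.comp ι) := by
    intro y
    obtain ⟨x, rfl⟩ := hχs y
    have hx : x ∈ normalizer ((PU : Subgroup U) : Set U) ⊔ W := by rw [hfr]; exact mem_top _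
    obtain ⟨m, hm, w, hw, rfl⟩ := (mem_sup_of_normal_right).mp hx
    refine ⟨⟨⟨m, hnor m hm⟩, m.2⟩, ?_⟩
    rw [map_mul, (hχ1 w).mpr hw, mul_one]
    rfl
  have hker : ∀ v : V, π v = 1 → (χ.comp ι) v = 1 := by
    intro v hv
    rw [MonoidHom.comp_apply, hχ1]
    exact hPW ((hπ1 v).mp hv)
  obtain ⟨v, hv, hve⟩ := hHb.exists_of_comap hiso π V hV (χ.comp ι) hφs hker hY (χ u)
  have h1 : (ι v)⁻¹ * u ∈ W := by
    rw [← hχ1, map_mul, map_inv, ← hve]
    exact inv_mul_cancel (χ (ι v))
  obtain ⟨x, hx, hxe⟩ := h1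
  have hvH : ((ι v : U) : G) ∈ H := (hmemH (v : L)).mpr hv
  refine ⟨ι v * x, x⁻¹ * ((ι v)⁻¹ * u), H.mul_mem hvH (hPH hx), ?_, by group⟩
  rw [← QuotientGroup.eq]
  exact hxe

end Pool.Agent.CoveringSubgroups
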