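import Pool.Agent.Lib.MP_7252b7_al_h61.NoCov

/-!
# Chief factors
-/

set_option autoImplicit false

namespace Pool.Agent.CoveringSubgroups

open Subgroup

/-- A group of even order has a chief factor of even order. -/
lemma exists_chief_even {G : Type} [Group G] [Finite G] (h : 2 ∣ Nat.card G) :
    ∃ (H K : Subgroup G), IsChiefFactor H K ∧ 2 ∣ K.relIndex H := by
  obtain ⟨K, -, hK⟩ := exists_maximal_ge_of_wellFoundedGT
    (fun K : Subgroup G => K.Normal ∧ 2 ∣ K.index) ⊥ ⟨inferInstance, by rwa [index_bot]⟩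
  have hKt : K < ⊤ := by
    rw [lt_top_iff_ne_top]
    rintro rfl
    have := hK.1.2
    rw [index_top] at this
    omega
  obtain ⟨H, -, hH⟩ := exists_minimal_le_of_wellFoundedLT
    (fun H : Subgroup G => H.Normal ∧ K < H) ⊤ ⟨inferInstance, hKt⟩
  refine ⟨H, K, ⟨hH.1.1, hK.1.1, hH.1.2, ?_⟩, ?_⟩
  · intro M hM hKM hMH
    by_cases h1 : M = K
    · exact Or.inl h1
    · right
      exact le_antisymm hMH (hH.2 ⟨hM, lt_of_le_of_ne hKM (Ne.symm h1)⟩ hMH)
  · have h1 : ¬ 2 ∣ H.index := by
      intro h2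
      have := hK.2 ⟨hH.1.1, h2⟩ hH.1.2.le
      exact absurd hH.1.2 (not_lt_of_ge this)
    have h2 : 2 ∣ K.relIndex H * H.index := by
      rw [relIndex_mul_index hH.1.2.le]
      exact hK.1.2
    rcases (Nat.prime_two.dvd_mul).mp h2 with h3 | h3
    · exact h3
    · exact absurd h3 h1

lemma IsFormation.of_subsingleton {F : GroupClass} (hF : IsFormation F) {A : Type} [Group A]
    [Subsingleton A] : F A := by
  obtain ⟨G, iG, hG⟩ := hF.nonempty
  exact hF.of_surjective (1 : G →* A) (fun a => ⟨1, Subsingleton.elim _ _⟩) hG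

/-- chief factors of a quotient -/
lemma IsChiefFactor.map_mk {G : Type} [Group G] {H K : Subgroup G} (h : IsChiefFactor H K)
    (M : Subgroup G) [M.Normal] (hM : H ⊓ M ≤ K) :
    ∃ h' : IsChiefFactor (H.map (QuotientGroup.mk' M)) (K.map (QuotientGroup.mk' M)),
      (K.map (QuotientGroup.mk' M)).relIndex (H.map (QuotientGroup.mk' M)) = K.relIndex H ∧
      (factorCentralizer _ _ h'.normal_top h'.normal_bot).comap (QuotientGroup.mk' M) =
        factorCentralizer H K h.normal_top h.normal_bot := by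
  have hH := h.normal_top
  have hK := h.normal_bot
  set π := QuotientGroup.mk' M with hπ
  have hs : Function.Surjective π := QuotientGroup.mk'_surjective M
  have hker : π.ker = M := QuotientGroup.ker_mk' M
  have hmeet : (K ⊔ M) ⊓ H = K := by
    apply le_antisymm
    · rintro x ⟨hx, hxH⟩
      obtain ⟨k, hk, m, hm, rfl⟩ := (mem_sup_of_normal_right).mp hx
      have h1 : m ∈ H := by
        have := H.mul_mem (H.inv_mem (h.lt.le hk)) hxH
        rwa [inv_mul_cancel_left] at this
      exact K.mul_mem hk (hM ⟨h1, hm⟩)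
    · exact le_inf le_sup_left h.lt.le
  have hcK : (K.map π).comap π = K ⊔ M := by rw [comap_map_eq, hker]
  have h' : IsChiefFactor (H.map π) (K.map π) := by
    refine ⟨hH.map π hs, hK.map π hs, ?_, ?_⟩
    · refine lt_of_le_of_ne (map_mono h.lt.le) ?_
      intro he
      have h1 : H ≤ K ⊔ M := by
        rw [← hcK, he]
        exact le_comap_map π H
      apply h.lt.not_ge
      calc H = (K ⊔ M) ⊓ H := (inf_eq_right.mpr h1).symm
        _ = K := hmeet
        _ ≤ K := le_rfl
    · intro L hL hKL hLH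
      have hLc : (L.comap π ⊓ H).Normal := by
        have := hL.comap π
        infer_instance
      have h1 : K ≤ L.comap π ⊓ H := le_inf (map_le_iff_le_comap.mp hKL) h.lt.le
      rcases h.eq_or_eq _ hLc h1 inf_le_right with h2 | h2
      · left
        apply le_antisymm _ hKL
        intro l hl
        obtain ⟨x, hx, rfl⟩ := hLH hl
        refine ⟨x, ?_, rfl⟩
        rw [← h2]
        exact ⟨hl, hx⟩
      · right
        apply le_antisymm hLH
        rw [map_le_iff_le_comap]
        rw [← h2]
        exact inf_le_left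
  refine ⟨h', ?_, ?_⟩
  · rw [relIndex_map_map, hker]
    have e : H ⊔ M = H ⊔ (K ⊔ M) := by
      rw [← sup_assoc, sup_eq_left.mpr h.lt.le]
    rw [e, relIndex_sup_right, ← inf_relIndex_right, hmeet]
  · ext g
    rw [mem_comap, mem_factorCentralizer, mem_factorCentralizer]
    constructor
    · intro hg x hx
      have h1 := hg (π x) ⟨x, hx, rfl⟩
      have h2 : g * x * g⁻¹ * x⁻¹ ∈ K ⊔ M := by
        rw [← hcK, mem_comap]
        simpa using h1
      have h3 : g * x * g⁻¹ * x⁻¹ ∈ H := H.mul_mem (hH.conj_mem x hx g) (H.inv_mem hx)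
      rw [← hmeet]
      exact ⟨h2, h3⟩
    · rintro hg _ ⟨x, hx, rfl⟩
      exact ⟨_, hg x hx, by simp⟩

/-- if the class contains a quotient of `G` by a centralizer, in the presence of a normal subgroup -/
lemma not_mem_of_quotient {f : ℕ → GroupClass} {F : GroupClass} (hf : IsLocallyDefinedBy F f)
    {G : Type} [Group G] [Finite G] (M : Subgroup G) (hM : IsMinNormal M) (hM2 : IsPGroup 2 M)
    (hFM : ∀ [M.Normal], F (G ⧸ M)) (hG : ¬ F G) :
    ¬ f 2 (G ⧸ factorCentralizer M ⊥ hM.isChiefFactor.normal_top hM.isChiefFactor.normal_bot) := by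
  have hMn := hM.normal
  have : Fact (Nat.Prime 2) := ⟨Nat.prime_two⟩
  have hFM' : F (G ⧸ M) := hFM
  intro hf2
  apply hG
  rw [hf.2]
  intro H K h p hp hpd
  have hH := h.normal_top
  have hK := h.normal_bot
  by_cases hle : H ⊓ M ≤ K
  · obtain ⟨h', hrel, hcen⟩ := h.map_mk M hle
    rw [hf.2] at hFM'
    have h1 := hFM' _ _ h' p hp (by rw [hrel]; exact hpd)
    rcases hf.1 p hp with hfp | hfp
    · let C' := factorCentralizer _ _ h'.normal_top h'.normal_bot
      have hC' : C'.Normal := factorCentralizer_normal _ _ _ _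
      let φ : G →* (G ⧸ M) ⧸ C' := (QuotientGroup.mk' C').comp (QuotientGroup.mk' M)
      have hφ : Function.Surjective φ :=
        (QuotientGroup.mk'_surjective C').comp (QuotientGroup.mk'_surjective M)
      have hk : φ.ker = factorCentralizer H K h.normal_top h.normal_bot := by
        rw [← hcen]
        ext x
        rw [MonoidHom.mem_ker, mem_comap]
        exact QuotientGroup.eq_one_iff _
      exact hfp.iso _ _ ((QuotientGroup.quotientKerEquivOfSurjective φ hφ).symm.trans
        (QuotientGroup.quotientMulEquivOfEq hk)) h1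
    · exact absurd h1 (hfp _)
  · have hnot : ¬ M ≤ K := fun h1 => hle (inf_le_right.trans h1)
    have hMH : M ≤ H := by
      have hn : (H ⊓ M).Normal := inferInstance
      rcases hM.eq_or_eq _ hn inf_le_right with h1 | h1
      · exact absurd (h1.le.trans bot_le) hle
      · exact inf_eq_right.mp h1
    have hKM : K ⊔ M = H := by
      have hn : (K ⊔ M).Normal := inferInstance
      rcases h.eq_or_eq _ hn le_sup_left (sup_le h.lt.le hMH) with h1 | h1
      · exact absurd (le_sup_right.trans h1.le) hnot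
      · exact h1
    have hKM2 : K ⊓ M = ⊥ := by
      have hn : (K ⊓ M).Normal := inferInstance
      rcases hM.eq_or_eq _ hn inf_le_right with h1 | h1
      · exact h1
      · exact absurd (inf_eq_right.mp h1) hnot
    have hp2 : p = 2 := by
      have h1 : K.relIndex H = Nat.card M := by
        rw [← hKM, relIndex_sup_left, ← inf_relIndex_right, hKM2, relIndex_bot_left]
      obtain ⟨n, hn⟩ := IsPGroup.iff_card.mp hM2
      rw [h1, hn] at hpd
      exact (Nat.prime_dvd_prime_iff_eq hp Nat.prime_two).mp (hp.dvd_of_dvd_pow hpd)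
    subst hp2
    have hcen : factorCentralizer M ⊥ hM.isChiefFactor.normal_top hM.isChiefFactor.normal_bot =
        factorCentralizer H K h.normal_top h.normal_bot := by
      ext g
      rw [mem_factorCentralizer, mem_factorCentralizer]
      constructor
      · intro hg x hx
        rw [← hKM] at hx
        obtain ⟨k, hk, m, hm, rfl⟩ := (mem_sup_of_normal_right).mp hx
        have h1 : g * m * g⁻¹ * m⁻¹ = 1 := mem_bot.mp (hg m hm)
        have e : g * (k * m) * g⁻¹ * (k * m)⁻¹ = (g * k * g⁻¹) * (g * m * g⁻¹ * m⁻¹) * k⁻¹ := by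
          group
        rw [e, h1, mul_one]
        exact K.mul_mem (hK.conj_mem k hk g) (K.inv_mem hk)
      · intro hg m hm
        rw [← hKM2]
        exact ⟨hg m (hMH hm), M.mul_mem (hMn.conj_mem m hm g) (M.inv_mem hm)⟩
    rcases hf.1 2 Nat.prime_two with hfp | hfp
    · exact hfp.iso _ _ (QuotientGroup.quotientMulEquivOfEq hcen) hf2
    · exact absurd hf2 (hfp _)

/-- The group induced on a minimal normal 2-subgroup has odd order if its Sylow 2-subgroup is
normal. -/
lemma odd_card_quotient {G : Type} [Group G] [Finite G] (M : Subgroup G) (hM : IsMinNormal M)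
    (hM2 : IsPGroup 2 M)
    (hcl : ∀ P : Sylow 2 (G ⧸ factorCentralizer M ⊥ hM.isChiefFactor.normal_top
      hM.isChiefFactor.normal_bot), P.toSubgroup.Normal) :
    Odd (Nat.card (G ⧸ factorCentralizer M ⊥ hM.isChiefFactor.normal_top
      hM.isChiefFactor.normal_bot)) := by
  have hMn := hM.normal
  have : Fact (Nat.Prime 2) := ⟨Nat.prime_two⟩
  set C : Subgroup G := factorCentralizer M ⊥ hM.isChiefFactor.normal_top
      hM.isChiefFactor.normal_bot with hC
  have hCn : C.Normal := factorCentralizer_normal _ _ _ _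
  have hmemC : ∀ g, g ∈ C ↔ ∀ m ∈ M, g * m * g⁻¹ = m := by
    intro g
    rw [hC, mem_factorCentralizer]
    constructor
    · intro h m hm
      exact mul_inv_eq_one.mp (mem_bot.mp (h m hm))
    · intro h m hm
      rw [mem_bot, h m hm, mul_inv_cancel]
  obtain ⟨S⟩ : Nonempty (Sylow 2 G) := inferInstance
  have hs : Function.Surjective (QuotientGroup.mk' C) := QuotientGroup.mk'_surjective C
  have hSn := hcl (S.mapSurjective hs)
  rw [Sylow.coe_mapSurjective] at hSn
  let L : Subgroup G :=
    { carrier := {m | m ∈ M ∧ ∀ s ∈ S, s * m * s⁻¹ = m}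
      one_mem' := ⟨M.one_mem, fun s _ => by group⟩
      mul_mem' := by
        rintro a b ⟨ha, ha'⟩ ⟨hb, hb'⟩
        refine ⟨M.mul_mem ha hb, fun s hs => ?_⟩
        have e : s * (a * b) * s⁻¹ = (s * a * s⁻¹) * (s * b * s⁻¹) := by group
        rw [e, ha' s hs, hb' s hs]
      inv_mem' := by
        rintro a ⟨ha, ha'⟩
        refine ⟨M.inv_mem ha, fun s hs => ?_⟩
        have e : s * a⁻¹ * s⁻¹ = (s * a * s⁻¹)⁻¹ := by group
        rw [e, ha' s hs] }
  have hLn : L.Normal := by
    constructor
    rintro m ⟨hm, hm'⟩ g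
    refine ⟨hMn.conj_mem m hm g, ?_⟩
    intro s hsS
    have h1 : QuotientGroup.mk' C (g⁻¹ * s * g) ∈ (S : Subgroup G).map (QuotientGroup.mk' C) := by
      rw [map_mul, map_mul, map_inv]
      have := hSn.conj_mem (QuotientGroup.mk' C s) ⟨s, hsS, rfl⟩ (QuotientGroup.mk' C g)⁻¹
      rwa [inv_inv] at this
    obtain ⟨s', hs', he⟩ := h1
    have h2 : s'⁻¹ * (g⁻¹ * s * g) ∈ C := QuotientGroup.eq.mp he
    rw [hmemC] at h2
    have h3 := h2 m hm
    have h4 := hm' s' hs'
    have e : s * (g * m * g⁻¹) * s⁻¹ =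
        g * (s' * (s'⁻¹ * (g⁻¹ * s * g) * m * (s'⁻¹ * (g⁻¹ * s * g))⁻¹) * s'⁻¹) * g⁻¹ := by group
    rw [e, h3, h4]
  have hLM : L ≤ M := fun m hm => hm.1
  have hLb : L ≠ ⊥ := by
    let act : MulAction S M := MulAction.compHom M
      ((MulAut.conjNormal (H := M)).comp (S : Subgroup G).subtype)
    have hdvd : 2 ∣ Nat.card M := by
      obtain ⟨n, hn⟩ := IsPGroup.iff_card.mp hM2
      rw [hn]
      apply dvd_pow_self
      rintro rfl
      rw [pow_zero] at hn
      exact hM.ne_bot (Subgroup.card_eq_one.mp hn)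
    have h1 : (1 : M) ∈ MulAction.fixedPoints S M := by
      intro s
      change MulAut.conjNormal (s : G) (1 : M) = 1
      rw [map_one]
    obtain ⟨m, hm, hm1⟩ := S.2.exists_fixed_point_of_prime_dvd_card_of_fixed_point M hdvd h1
    intro hb
    have h2 : (m : G) ∈ L := by
      refine ⟨m.2, fun s hs => ?_⟩
      exact congrArg Subtype.val (hm ⟨s, hs⟩)
    rw [hb, mem_bot] at h2
    exact hm1 (Subtype.ext h2.symm)
  have hLM' : L = M := by
    rcases hM.eq_or_eq L hLn hLM with h | h
    · exact absurd h hLb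
    · exact h
  have hSC : (S : Subgroup G) ≤ C := by
    intro s hs
    rw [hmemC]
    intro m hm
    rw [← hLM'] at hm
    exact hm.2 s hs
  by_contra hodd
  rw [Nat.not_odd_iff_even, even_iff_two_dvd] at hodd
  apply (S.mapSurjective hs).ne_bot_of_dvd_card hodd
  rw [Sylow.coe_mapSurjective, eq_bot_iff]
  rintro _ ⟨s, hs, rfl⟩
  rw [mem_bot]
  exact (QuotientGroup.eq_one_iff s).mpr (hSC hs)

end Pool.Agent.CoveringSubgroups
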