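import Mathlib

/-!
# General facts on finite groups
-/

set_option autoImplicit false

namespace Pool.Agent.CoveringSubgroups

open Subgroup

lemma exists_mem_ne_one {G : Type} [Group G] {M : Subgroup G} (h : M ≠ ⊥) :
    ∃ g ∈ M, g ≠ 1 := by
  rcases M.bot_or_exists_ne_one with h' | ⟨x, hx, hx1⟩
  · exact absurd h' h
  · exact ⟨x, hx, hx1⟩

/-- `M` is a minimal normal subgroup of `G`. -/
structure IsMinNormal {G : Type} [Group G] (M : Subgroup G) : Prop where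
  normal : M.Normal
  ne_bot : M ≠ ⊥
  eq_or_eq : ∀ L : Subgroup G, L.Normal → L ≤ M → L = ⊥ ∨ L = M

lemma exists_isMinNormal {G : Type} [Group G] [Finite G] (N : Subgroup G) [hN : N.Normal]
    (hb : N ≠ ⊥) : ∃ M : Subgroup G, IsMinNormal M ∧ M ≤ N := by
  obtain ⟨M, hMN, hM⟩ := exists_minimal_le_of_wellFoundedLT
    (fun M : Subgroup G => M.Normal ∧ M ≠ ⊥) N ⟨hN, hb⟩
  refine ⟨M, ⟨hM.1.1, hM.1.2, ?_⟩, hMN⟩
  intro L hL hLM
  by_cases h : L = ⊥
  · exact Or.inl h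
  · exact Or.inr (le_antisymm hLM (hM.2 ⟨hL, h⟩ hLM))

lemma IsMinNormal.comm {G : Type} [Group G] [Group.IsSolvable G] {M : Subgroup G}
    (hM : IsMinNormal M) : ∀ a ∈ M, ∀ b ∈ M, a * b = b * a := by
  have := hM.normal
  have h1 : ⁅M, M⁆ < M := Group.IsSolvable.commutator_lt_of_ne_bot hM.ne_bot
  have h2 : ⁅M, M⁆ = ⊥ := by
    rcases hM.eq_or_eq ⁅M, M⁆ inferInstance h1.le with h | h
    · exact h
    · exact absurd h h1.ne
  intro a ha b hb
  have h3 := commutator_mem_commutator ha hb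
  rw [h2, mem_bot] at h3
  exact commutatorElement_eq_one_iff_mul_comm.mp h3

/-- The elements fixing or inverting `g`. -/
def flip {S : Type} [Group S] (g : S) : Subgroup S where
  carrier := {n | n * g * n⁻¹ = g ∨ n * g * n⁻¹ = g⁻¹}
  one_mem' := by left; group
  mul_mem' := by
    intro a b ha hb
    change a * b * g * (a * b)⁻¹ = g ∨ a * b * g * (a * b)⁻¹ = g⁻¹
    have e : a * b * g * (a * b)⁻¹ = a * (b * g * b⁻¹) * a⁻¹ := by group
    have e2 : a * g⁻¹ * a⁻¹ = (a * g * a⁻¹)⁻¹ := by group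
    rw [e]
    rcases hb with hb | hb <;> rcases ha with ha | ha <;> rw [hb]
    · left; exact ha
    · right; exact ha
    · right; rw [e2, ha]
    · left; rw [e2, ha, inv_inv]
  inv_mem' := by
    intro a ha
    change a⁻¹ * g * a⁻¹⁻¹ = g ∨ a⁻¹ * g * a⁻¹⁻¹ = g⁻¹
    rcases ha with ha | ha
    · left
      calc a⁻¹ * g * a⁻¹⁻¹ = a⁻¹ * (a * g * a⁻¹) * a := by rw [ha, inv_inv]
        _ = g := by group
    · right
      calc a⁻¹ * g * a⁻¹⁻¹ = (a⁻¹ * g⁻¹ * a)⁻¹ := by group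
        _ = (a⁻¹ * (a * g * a⁻¹) * a)⁻¹ := by rw [ha]
        _ = g⁻¹ := by group

lemma mem_flip {S : Type} [Group S] {g n : S} :
    n ∈ flip g ↔ n * g * n⁻¹ = g ∨ n * g * n⁻¹ = g⁻¹ := Iff.rfl

open Classical in
/-- The sign of an element of `flip g`. -/
noncomputable def eps {S : Type} [Group S] (g : S) (hg : g ≠ g⁻¹) : flip g →* ℤˣ where
  toFun n := if (n : S) * g * (n : S)⁻¹ = g then 1 else -1
  map_one' := by
    rw [if_pos]
    simp
  map_mul' := by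
    rintro ⟨a, ha⟩ ⟨b, hb⟩
    have e : a * b * g * (a * b)⁻¹ = a * (b * g * b⁻¹) * a⁻¹ := by group
    have e2 : a * g⁻¹ * a⁻¹ = (a * g * a⁻¹)⁻¹ := by group
    have hg' : g⁻¹ ≠ g := hg.symm
    change (if a * b * g * (a * b)⁻¹ = g then (1 : ℤˣ) else -1) =
      (if a * g * a⁻¹ = g then (1 : ℤˣ) else -1) * (if b * g * b⁻¹ = g then (1 : ℤˣ) else -1)
    rw [e]
    rcases mem_flip.mp hb with hb | hb <;> rcases mem_flip.mp ha with ha | ha <;> rw [hb]
    · rw [ha, if_pos rfl, one_mul]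
    · rw [ha, if_pos rfl, mul_one]
    · rw [e2, ha, if_pos rfl, one_mul]
    · rw [e2, ha, inv_inv, if_pos rfl, if_neg hg']; rfl

open Classical in
lemma eps_of_inv {S : Type} [Group S] {g : S} (hg : g ≠ g⁻¹) {w : S} (hw : w * g * w⁻¹ = g⁻¹) :
    eps g hg ⟨w, Or.inr hw⟩ = -1 := by
  change (if w * g * w⁻¹ = g then (1 : ℤˣ) else -1) = -1
  rw [hw, if_neg hg.symm]

end Pool.Agent.CoveringSubgroups
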