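import Pool.Agent.Lib.MP_7252b7_al_h61.SL2
import Pool.Agent.Lib.MP_7252b7_al_h61.Gen

/-!
# Subgroups of `SL₂(K)` of odd order, and with a normal 2-subgroup
-/

set_option autoImplicit false

namespace Pool.Agent.CoveringSubgroups

open Matrix

variable {K : Type} [Field K]

/-- A soluble subgroup of odd order fixes or inverts some element of nonzero trace. -/
lemma exists_tr_flip [CharP K 2] [Finite K] (D : Subgroup (SL K)) (hD : Odd (Nat.card D))
    (hs : Group.IsSolvable D) (hz : ∃ z : Kˣ, z ≠ 1) :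
    ∃ g : SL K, tr g ≠ 0 ∧ D ≤ flip g := by
  have h6 : (2 : K) = 0 := CharTwo.two_eq_zero
  by_cases hb : D = ⊥
  · obtain ⟨z, hz⟩ := hz
    refine ⟨(diagU z : SL K), ?_, by rw [hb]; exact bot_le⟩
    intro ht
    apply hz
    have ht' : (z : K) + ((z⁻¹ : Kˣ) : K) = 0 := ht
    have h1 : (z : K) * ((z⁻¹ : Kˣ) : K) = 1 := Units.mul_inv z
    have h2 : ((z : K) - 1) ^ 2 = 0 := by
      linear_combination (z : K) * ht' - h1 - (z : K) * h6
    have h3 := pow_eq_zero_iff (two_ne_zero) |>.mp h2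
    apply Units.ext
    rw [Units.val_one]
    linear_combination h3
  · have hne : (⊤ : Subgroup D) ≠ ⊥ := by
      intro h
      apply hb
      rw [eq_bot_iff]
      intro x hx
      have : (⟨x, hx⟩ : D) ∈ (⊤ : Subgroup D) := Subgroup.mem_top _
      rw [h, Subgroup.mem_bot] at this
      rw [Subgroup.mem_bot]
      exact congrArg Subtype.val this
    obtain ⟨M, hM, -⟩ := exists_isMinNormal (⊤ : Subgroup D) hne
    obtain ⟨g, hg, hg1⟩ := exists_mem_ne_one hM.ne_bot
    have htr : tr (g : SL K) ≠ 0 := by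
      intro h
      have h2 : g * g = 1 := Subtype.ext (sq_eq_one_of_tr h)
      apply hg1
      have h3 : orderOf g ∣ 2 := orderOf_dvd_of_pow_eq_one (by rw [pow_two, h2])
      have h4 : orderOf g ∣ Nat.card D := orderOf_dvd_natCard g
      rcases (Nat.dvd_prime Nat.prime_two).mp h3 with h5 | h5
      · exact orderOf_eq_one_iff.mp h5
      · rw [h5] at h4
        exact absurd (even_iff_two_dvd.mpr h4) (Nat.not_even_iff_odd.mpr hD)
    refine ⟨(g : SL K), htr, ?_⟩
    intro n hn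
    rw [mem_flip]
    have h1 : (⟨n, hn⟩ : D) * g * (⟨n, hn⟩ : D)⁻¹ ∈ M := hM.normal.conj_mem g hg _
    have h2 := hM.comm _ h1 _ hg
    have h3 : n * (g : SL K) * n⁻¹ * (g : SL K) = (g : SL K) * (n * (g : SL K) * n⁻¹) :=
      congrArg Subtype.val h2
    exact eq_or_eq_inv htr h3 (tr_conj _ _)

/-- pairs, with the natural action of `SL₂(K)` -/
@[ext] structure Vec (K : Type) where
  /-- first coordinate -/
  x : K
  /-- second coordinate -/
  y : K

instance : MulAction (SL K) (Vec K) where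
  smul g v := ⟨ent g 0 0 * v.x + ent g 0 1 * v.y, ent g 1 0 * v.x + ent g 1 1 * v.y⟩
  one_smul v := by
    change (⟨ent (1 : SL K) 0 0 * v.x + ent (1 : SL K) 0 1 * v.y,
      ent (1 : SL K) 1 0 * v.x + ent (1 : SL K) 1 1 * v.y⟩ : Vec K) = v
    rw [ent_one_00, ent_one_01, ent_one_10, ent_one_11]
    ext <;> simp
  mul_smul g h v := by
    change (⟨ent (g * h) 0 0 * v.x + ent (g * h) 0 1 * v.y,
      ent (g * h) 1 0 * v.x + ent (g * h) 1 1 * v.y⟩ : Vec K) =
      ⟨ent g 0 0 * (ent h 0 0 * v.x + ent h 0 1 * v.y) +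
        ent g 0 1 * (ent h 1 0 * v.x + ent h 1 1 * v.y),
      ent g 1 0 * (ent h 0 0 * v.x + ent h 0 1 * v.y) +
        ent g 1 1 * (ent h 1 0 * v.x + ent h 1 1 * v.y)⟩
    rw [ent_mul, ent_mul, ent_mul, ent_mul]
    ext
    · ring
    · ring

lemma smul_x (g : SL K) (v : Vec K) : (g • v).x = ent g 0 0 * v.x + ent g 0 1 * v.y := rfl

lemma smul_y (g : SL K) (v : Vec K) : (g • v).y = ent g 1 0 * v.x + ent g 1 1 * v.y := rfl

/-- every nonzero vector is conjugate to the first basis vector -/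
lemma exists_smul_eq (v : Vec K) (hv : v ≠ ⟨0, 0⟩) : ∃ n : SL K, n • v = (⟨1, 0⟩ : Vec K) := by
  by_cases hx : v.x = 0
  · have hy : v.y ≠ 0 := by
      intro hy
      apply hv
      ext
      · exact hx
      · exact hy
    refine ⟨mk2 0 (v.y)⁻¹ (-v.y) 0 (by field_simp; ring), ?_⟩
    ext
    · rw [smul_x, ent_mk2_00, ent_mk2_01]
      change _ = (1 : K)
      field_simp
      ring
    · rw [smul_y, ent_mk2_10, ent_mk2_11, hx]
      change _ = (0 : K)
      ring
  · refine ⟨mk2 (v.x)⁻¹ 0 (-v.y) v.x (by field_simp; ring), ?_⟩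
    ext
    · rw [smul_x, ent_mk2_00, ent_mk2_01]
      change _ = (1 : K)
      field_simp
      ring
    · rw [smul_y, ent_mk2_10, ent_mk2_11]
      change _ = (0 : K)
      ring

/-- A subgroup normalising a nontrivial 2-subgroup of it is conjugate to a group of upper triangular
matrices. -/
lemma exists_conj_borel [CharP K 2] [Finite K] (D A : Subgroup (SL K)) (hA : IsPGroup 2 A) (hne : A ≠ ⊥)
    (hnorm : ∀ d ∈ D, ∀ a ∈ A, d⁻¹ * a * d ∈ A) :
    ∃ n : SL K, ∀ d ∈ D, n * d * n⁻¹ ∈ borel K := by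
  have : Finite (Vec K) := by
    apply Finite.of_injective (fun v : Vec K => (v.x, v.y))
    intro v w h
    have := Prod.ext_iff.mp h
    exact Vec.ext this.1 this.2
  have hfin : Finite K := inferInstance
  have : Fact (Nat.Prime 2) := ⟨Nat.prime_two⟩
  have hcard : 2 ∣ Nat.card (Vec K) := by
    have e : Vec K ≃ K × K := ⟨fun v => (v.x, v.y), fun p => ⟨p.1, p.2⟩, fun _ => rfl, fun _ => rfl⟩
    rw [Nat.card_congr e, Nat.card_prod]
    apply Dvd.dvd.mul_right
    have := Fintype.ofFinite K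
    obtain ⟨n, hp, hn⟩ := FiniteField.card K 2
    rw [Nat.card_eq_fintype_card, hn]
    exact dvd_pow_self 2 n.ne_zero
  have h0 : (⟨0, 0⟩ : Vec K) ∈ MulAction.fixedPoints A (Vec K) := by
    intro a
    change (a : SL K) • (⟨0, 0⟩ : Vec K) = ⟨0, 0⟩
    ext
    · rw [smul_x]; change _ = (0 : K); simp
    · rw [smul_y]; change _ = (0 : K); simp
  obtain ⟨v, hv, hv0⟩ := hA.exists_fixed_point_of_prime_dvd_card_of_fixed_point (Vec K) hcard h0
  obtain ⟨n, hn⟩ := exists_smul_eq v hv0.symm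
  have hfix : ∀ a ∈ A, (n * a * n⁻¹) • (⟨1, 0⟩ : Vec K) = ⟨1, 0⟩ := by
    intro a ha
    have h1 : a • v = v := hv ⟨a, ha⟩
    rw [← hn, mul_smul, mul_smul, inv_smul_smul, h1]
  have hent : ∀ a ∈ A, ent (n * a * n⁻¹) 0 0 = 1 ∧ ent (n * a * n⁻¹) 1 0 = 0 := by
    intro a ha
    have h1 := congrArg Vec.x (hfix a ha)
    have h2 := congrArg Vec.y (hfix a ha)
    rw [smul_x] at h1
    rw [smul_y] at h2
    constructor
    · change _ = (1 : K) at h1
      linear_combination h1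
    · change _ = (0 : K) at h2
      linear_combination h2
  obtain ⟨a, ha, ha1⟩ := exists_mem_ne_one hne
  have hb : ent (n * a * n⁻¹) 0 1 ≠ 0 := by
    intro hb
    apply ha1
    have h11 : ent (n * a * n⁻¹) 1 1 = 1 := by
      have := sl_det (n * a * n⁻¹)
      rw [(hent a ha).1, (hent a ha).2] at this
      linear_combination this
    have h1 : n * a * n⁻¹ = 1 := by
      apply sl_ext
      · rw [(hent a ha).1, ent_one_00]
      · rw [hb, ent_one_01]
      · rw [(hent a ha).2, ent_one_10]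
      · rw [h11, ent_one_11]
    have h2 : a = n⁻¹ * (n * a * n⁻¹) * n := by group
    rw [h2, h1]; group
  refine ⟨n, ?_⟩
  intro d hd
  rw [mem_borel]
  have h1 := hfix _ (hnorm d hd a ha)
  have h2 : (n * a * n⁻¹) • ((n * d * n⁻¹) • (⟨1, 0⟩ : Vec K)) =
      (n * d * n⁻¹) • (⟨1, 0⟩ : Vec K) := by
    have e : n * (d⁻¹ * a * d) * n⁻¹ = (n * d * n⁻¹)⁻¹ * ((n * a * n⁻¹) * (n * d * n⁻¹)) := by group
    rw [e, mul_smul, inv_smul_eq_iff, mul_smul] at h1
    exact h1
  have h3 := congrArg Vec.x h2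
  rw [smul_x, smul_x, smul_y, (hent a ha).1] at h3
  change 1 * (ent (n * d * n⁻¹) 0 0 * (1 : K) + ent (n * d * n⁻¹) 0 1 * (0 : K)) +
    ent (n * a * n⁻¹) 0 1 * (ent (n * d * n⁻¹) 1 0 * (1 : K) + ent (n * d * n⁻¹) 1 1 * (0 : K)) =
    ent (n * d * n⁻¹) 0 0 * (1 : K) + ent (n * d * n⁻¹) 0 1 * (0 : K) at h3
  have h4 : ent (n * a * n⁻¹) 0 1 * ent (n * d * n⁻¹) 1 0 = 0 := by linear_combination h3
  rcases mul_eq_zero.mp h4 with h | h
  · exact absurd h hb
  · exact h

end Pool.Agent.CoveringSubgroups
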