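import Pool.Agent.Lib.MP_7252b7_al_h61.Wreath

/-!
# The twisted product homomorphism
-/

set_option autoImplicit false

namespace Pool.Agent.CoveringSubgroups

open RegularWreathProduct
open scoped IsMulCommutative

variable {C X : Type} [Group C] [Group X] [Fintype X] (V : Subgroup X) [V.Normal]
  [IsMulCommutative V] (χ : C →* V)

/-- The twisted product. -/
def tau (w : C ≀ᵣ X) : V := ∏ c : X, MulAut.conjNormal c (χ (w.left c))

lemma tau_mul (v w : C ≀ᵣ X) :
    tau V χ (v * w) = tau V χ v * MulAut.conjNormal v.right (tau V χ w) := by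
  unfold tau
  have h : MulAut.conjNormal v.right (∏ c : X, MulAut.conjNormal c (χ (w.left c))) =
      ∏ c : X, MulAut.conjNormal c (χ (w.left (v.right⁻¹ * c))) := by
    rw [map_prod]
    apply Fintype.prod_equiv (Equiv.mulLeft v.right)
    intro c
    rw [← MulAut.mul_apply, ← map_mul]
    change _ = MulAut.conjNormal (v.right * c) (χ (w.left (v.right⁻¹ * (v.right * c))))
    rw [inv_mul_cancel_left]
  rw [h, ← Finset.prod_mul_distrib]
  apply Finset.prod_congr rfl
  intro c _
  rw [← map_mul, ← map_mul]
  rfl

omit [Fintype X] [V.Normal] [IsMulCommutative V] in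
lemma bijective_out_mul :
    Function.Bijective (fun p : (X ⧸ V) × V => (p.1.out * (p.2 : X) : X)) := by
  have hmk : ∀ (q : X ⧸ V) (v : V), ((q.out * (v : X) : X) : X ⧸ V) = q := by
    intro q v
    rw [QuotientGroup.mk_mul_of_mem _ v.2]
    exact QuotientGroup.out_eq' q
  constructor
  · rintro ⟨q, v⟩ ⟨q', v'⟩ h
    have h1 : (q.out * (v : X) : X) = q'.out * (v' : X) := h
    have h2 : q = q' := by rw [← hmk q v, h1, hmk q' v']
    subst h2
    have h3 : v = v' := Subtype.ext (mul_left_cancel h1)
    rw [h3]
  · intro c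
    have h1 : ((c : X ⧸ V).out)⁻¹ * c ∈ V := by
      rw [← QuotientGroup.eq]
      exact QuotientGroup.out_eq' _
    refine ⟨(↑c, ⟨_, h1⟩), ?_⟩
    change (c : X ⧸ V).out * (((c : X ⧸ V).out)⁻¹ * c) = c
    rw [mul_inv_cancel_left]

/-- The homomorphism `w ↦ (τ(w) x, x)`, `x` the image of `w` in `X`. -/
def psi : C ≀ᵣ X →* X × X where
  toFun w := ((tau V χ w : X) * w.right, w.right)
  map_one' := by
    have h : tau V χ (1 : C ≀ᵣ X) = 1 := by
      unfold tau
      apply Finset.prod_eq_one
      intro c _
      rw [wr_left_one, map_one, map_one]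
    rw [h, one_right]
    simp
  map_mul' v w := by
    rw [tau_mul, mul_right, Subgroup.coe_mul, MulAut.conjNormal_apply]
    ext
    · change _ = ((tau V χ v : X) * v.right) * ((tau V χ w : X) * w.right)
      group
    · rfl

lemma psi_fst (w : C ≀ᵣ X) : (psi V χ w).1 = (tau V χ w : X) * w.right := rfl

lemma psi_snd (w : C ≀ᵣ X) : (psi V χ w).2 = w.right := rfl

/-- elements of the wreath product with constant-along-`V` coordinates have trivial twisted
product -/
lemma tau_eq_one (w : C ≀ᵣ X) (hw : ∀ v ∈ V, ∀ c, w.left (v * c) = w.left c) :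
    tau V χ w = 1 := by
  unfold tau
  set G : X → V := fun c => MulAut.conjNormal c (χ (w.left c)) with hG
  have hinv : ∀ c : X, ∀ v : V, G (c * v) = G c := by
    intro c v
    have h1 : w.left (c * v) = w.left c := by
      have h2 := hw (c * v * c⁻¹) ((inferInstance : V.Normal).conj_mem v v.2 c) c
      rw [← h2]
      congr 1
      group
    rw [hG]
    change MulAut.conjNormal (c * (v : X)) (χ (w.left (c * v))) = MulAut.conjNormal c (χ (w.left c))
    rw [h1, map_mul, MulAut.mul_apply]
    congr 1
    apply Subtype.ext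
    rw [MulAut.conjNormal_apply]
    have h3 : v * χ (w.left c) = χ (w.left c) * v := mul_comm _ _
    have h4 : (v : X) * (χ (w.left c) : X) = (χ (w.left c) : X) * (v : X) := congrArg Subtype.val h3
    rw [h4, mul_inv_cancel_right]
  have := Fintype.ofFinite (X ⧸ V)
  have := Fintype.ofFinite V
  have e : ∏ c : X, G c = ∏ p : (X ⧸ V) × V, G (p.1.out * p.2) := by
    symm
    exact Function.Bijective.prod_comp (bijective_out_mul V) G
  rw [e, Fintype.prod_prod_type (fun p : (X ⧸ V) × V => G (p.1.out * p.2))]
  apply Finset.prod_eq_one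
  intro q _
  have h5 : ∀ v : V, G (q.out * v) = G q.out := fun v => hinv _ v
  rw [Finset.prod_congr rfl (fun v _ => h5 v), Finset.prod_const, Finset.card_univ,
    ← Nat.card_eq_fintype_card, pow_card_eq_one']

end Pool.Agent.CoveringSubgroups
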