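import Pool.Agent.Lib.MP_7252b7_al_h61.Frattini
import Pool.Agent.Lib.MP_7252b7_al_h61.SL2b
import Pool.Agent.Lib.MP_7252b7_al_h61.Tau

/-!
# Covering subgroups of `SL₂(K) ≀ X`
-/

set_option autoImplicit false

namespace Pool.Agent.CoveringSubgroups

open RegularWreathProduct
open scoped IsMulCommutative

/-- The homomorphism form of the covering property. -/
structure Cov (F : GroupClass) {G : Type} [Group G] (H : Subgroup G) : Prop where
  mem : F H
  cov : ∀ U : Subgroup G, H ≤ U → ∀ (Y : Type) [Group Y] (φ : U →* Y), Function.Surjective φ →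
    F Y → ∀ y : Y, ∃ u : U, (u : G) ∈ H ∧ φ u = y

variable {F : GroupClass}

lemma IsCovering.toCov (hiso : ∀ (G H : Type) [Group G] [Group H], (G ≃* H) → F G → F H)
    {G : Type} [Group G] {H : Subgroup G} (h : IsCovering F H) : Cov F H :=
  ⟨h.1, fun _ hU _ _ φ hφ hY y => h.exists_map_eq hiso hU φ hφ hY y⟩

lemma Cov.conj (hiso : ∀ (G H : Type) [Group G] [Group H], (G ≃* H) → F G → F H)
    {G : Type} [Group G] {H : Subgroup G} (h : Cov F H) (m : G) :
    Cov F (H.map (MulAut.conj m).toMonoidHom) := by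
  constructor
  · exact hiso _ _ (H.equivMapOfInjective (MulAut.conj m).toMonoidHom
      (MulAut.conj m).injective) h.mem
  · intro U hU Y _ φ hφ hY y
    let U' : Subgroup G := U.comap (MulAut.conj m).toMonoidHom
    have hU' : H ≤ U' := Subgroup.map_le_iff_le_comap.mp hU
    let r : U' →* U := (MulAut.conj m).toMonoidHom.subgroupComap U
    have hr : Function.Surjective r := by
      rintro ⟨u, hu⟩
      refine ⟨⟨m⁻¹ * u * m, ?_⟩, ?_⟩
      · change m * (m⁻¹ * u * m) * m⁻¹ ∈ U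
        have e : m * (m⁻¹ * u * m) * m⁻¹ = u := by group
        rw [e]; exact hu
      · apply Subtype.ext
        change m * (m⁻¹ * u * m) * m⁻¹ = u
        group
    obtain ⟨u, hu, he⟩ := h.cov U' hU' Y (φ.comp r) (hφ.comp hr) hY y
    exact ⟨r u, ⟨u, hu, rfl⟩, he⟩

lemma Cov.exists_right {S X : Type} [Group S] [Group X] {H : Subgroup (S ≀ᵣ X)} (h : Cov F H)
    (hX : F X) (x : X) : ∃ u ∈ H, u.right = x := by
  let φ : (⊤ : Subgroup (S ≀ᵣ X)) →* X := rightHom.comp (Subgroup.subtype _)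
  obtain ⟨u, hu, he⟩ := h.cov ⊤ le_top X φ (fun x => ⟨⟨⟨1, x⟩, Subgroup.mem_top _⟩, rfl⟩) hX x
  exact ⟨u, hu, he⟩

/-- The case of odd order. -/
lemma Cov.false_of_odd {S X : Type} [Group S] [Group X] [Finite X] {H : Subgroup (S ≀ᵣ X)}
    (h : Cov F H) (hodd : Odd (Nat.card H)) (W : Subgroup S) (hW : ∀ u ∈ H, ∀ c, u.left c ∈ W)
    (ε : W →* ℤˣ) (hε : Function.Surjective ε) (hF2 : F ℤˣ) : False := by
  have := Fintype.ofFinite X
  let φ : coordSub X W →* ℤˣ := coordProd.comp (coordMap ε)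
  have hφ : Function.Surjective φ := coordProd_surjective.comp (coordMap_surjective ε hε)
  obtain ⟨u, hu, he⟩ := h.cov (coordSub X W) hW ℤˣ φ hφ hF2 (-1)
  have h1 : (u : S ≀ᵣ X) ^ Nat.card H = 1 := by
    have := pow_card_eq_one' (x := (⟨u, hu⟩ : H))
    exact congrArg Subtype.val this
  have h2 : u ^ Nat.card H = 1 := Subtype.ext h1
  have h3 : (φ u) ^ Nat.card H = 1 := by rw [← map_pow, h2, map_one]
  rw [he, hodd.neg_one_pow] at h3
  exact absurd h3 (by decide)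

lemma IsFormation.of_two_hom (hF : IsFormation F) {Z A B : Type} [Group Z] [Finite Z] [Group A]
    [Group B] (f : Z →* A) (g : Z →* B) (hf : Function.Surjective f) (hg : Function.Surjective g)
    (hA : F A) (hB : F B) (hfg : ∀ z, f z = 1 → g z = 1 → z = 1) : F Z := by
  have h1 : F (Z ⧸ f.ker) :=
    hF.iso _ _ (QuotientGroup.quotientKerEquivOfSurjective f hf).symm hA
  have h2 : F (Z ⧸ g.ker) :=
    hF.iso _ _ (QuotientGroup.quotientKerEquivOfSurjective g hg).symm hB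
  have h3 := hF.subdirect Z f.ker g.ker h1 h2
  have h4 : f.ker ⊓ g.ker = ⊥ := by
    rw [eq_bot_iff]
    rintro z ⟨hz1, hz2⟩
    exact hfg z hz1 hz2
  exact hF.iso _ _ ((QuotientGroup.quotientMulEquivOfEq h4).trans QuotientGroup.quotientBot) h3

lemma range_psi_mem (hF : IsFormation F) {C X : Type} [Group C] [Group X] [Fintype X] (hX : F X)
    (V : Subgroup X) [V.Normal] [IsMulCommutative V] (χ : C →* V) : F (psi V χ).range := by
  have hinl : ∀ x : X, psi V χ (⟨1, x⟩ : C ≀ᵣ X) = (x, x) := by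
    intro x
    have h1 : tau V χ (⟨1, x⟩ : C ≀ᵣ X) = 1 := by
      apply tau_eq_one
      intro v _ c
      rfl
    apply Prod.ext
    · rw [psi_fst, h1]
      change 1 * x = x
      rw [one_mul]
    · rfl
  apply hF.of_two_hom ((MonoidHom.fst X X).comp (psi V χ).range.subtype)
    ((MonoidHom.snd X X).comp (psi V χ).range.subtype) ?_ ?_ hX hX
  · rintro ⟨z, hz⟩ h1 h2
    apply Subtype.ext
    exact Prod.ext h1 h2
  · intro x
    exact ⟨⟨(x, x), ⟨_, hinl x⟩⟩, rfl⟩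
  · intro x
    exact ⟨⟨(x, x), ⟨_, hinl x⟩⟩, rfl⟩

lemma tau_single {C X : Type} [Group C] [Group X] [Fintype X] [DecidableEq X]
    (V : Subgroup X) [V.Normal] [IsMulCommutative V] (χ : C →* V) (z : C) :
    tau V χ (⟨Pi.mulSingle 1 z, 1⟩ : C ≀ᵣ X) = χ z := by
  unfold tau
  rw [Finset.prod_eq_single (1 : X)]
  · change MulAut.conjNormal 1 (χ ((Pi.mulSingle 1 z : X → C) 1)) = χ z
    rw [Pi.mulSingle_eq_same, map_one, MulAut.one_apply]
  · intro c _ hc
    change MulAut.conjNormal c (χ ((Pi.mulSingle 1 z : X → C) c)) = 1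
    rw [Pi.mulSingle_eq_of_ne (M := fun _ : X => C) hc z, map_one, map_one]
  · intro h
    exact absurd (Finset.mem_univ _) h

lemma wr_left_conj_comm {C X : Type} [CommGroup C] [Group X] (w u : C ≀ᵣ X) (hu : u.right = 1)
    (c : X) : (w * u * w⁻¹).left c = u.left (w.right⁻¹ * c) := by
  rw [wr_left_mul, wr_left_mul, wr_left_inv, mul_right, hu, mul_one, mul_inv_cancel_left,
    mul_comm (w.left c) (u.left _), mul_inv_cancel_right]

lemma wr_left_comm {C X : Type} [CommGroup C] [Group X] (w u : C ≀ᵣ X) (hu : u.right = 1) (c : X) :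
    (w * u * w⁻¹ * u⁻¹).left c = u.left (w.right⁻¹ * c) * (u.left c)⁻¹ := by
  have hr : (w * u * w⁻¹).right = 1 := by
    rw [mul_right, mul_right, inv_right, hu, mul_one, mul_inv_cancel]
  rw [wr_left_mul, wr_left_conj_comm w u hu, wr_left_inv, hr, hu, inv_one, one_mul, one_mul]

lemma wr_left_pow {S X : Type} [Group S] [Group X] (w : S ≀ᵣ X) (hw : w.right = 1) (c : X)
    (n : ℕ) : (w ^ n).left c = (w.left c) ^ n := by
  induction n with
  | zero => rw [pow_zero, pow_zero]; rfl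
  | succ n ih =>
    have h : (w ^ n).right = 1 := by
      have := map_pow (rightHom (D := S) (Q := X)) w n
      change (w ^ n).right = w.right ^ n at this
      rw [this, hw, one_pow]
    rw [pow_succ, pow_succ, wr_left_mul, ih, h, inv_one, one_mul]

/-- The case of even order. -/
lemma Cov.false_of_even (hF : IsFormation F) {K : Type} [Field K] [CharP K 2] {X : Type} [Group X]
    [Finite X] (hX : F X) {H : Subgroup (SL K ≀ᵣ X)} (h : Cov F H)
    (hH : ∀ u ∈ H, ∀ c, u.left c ∈ borel K)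
    (V : Subgroup X) [V.Normal] [IsMulCommutative V] (χ : Kˣ →* V) (z₀ : Kˣ) (hz : χ z₀ ≠ 1)
    (A Y : Subgroup (SL K ≀ᵣ X)) (hA : A ≤ H) (hA2 : ∀ a ∈ A, ∃ k : ℕ, a ^ 2 ^ k = 1)
    (hAb : ∀ a ∈ A, a.right = 1) (hA1 : A ≠ ⊥) (hY : Y ≤ H)
    (hYn : ∀ u ∈ H, ∀ y ∈ Y, u * y * u⁻¹ ∈ Y) (hc : ∀ y ∈ Y, ∀ a ∈ A, y * a = a * y)
    (hVY : ∀ v ∈ V, ∃ y ∈ Y, y.right = v) : False := by
  classical
  have := Fintype.ofFinite X
  let q : coordSub X (borel K) →* Kˣ ≀ᵣ X := coordMap (lam K)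
  have hq : Function.Surjective q := coordMap_surjective _ (fun z => ⟨diagU z, lam_diagU z⟩)
  let ψ : coordSub X (borel K) →* (psi V χ).range := (psi V χ).rangeRestrict.comp q
  have hψ : Function.Surjective ψ := (MonoidHom.rangeRestrict_surjective _).comp hq
  obtain ⟨u, hu, hue⟩ := h.cov (coordSub X (borel K)) hH _ ψ hψ (range_psi_mem hF hX V χ)
    ⟨psi V χ ⟨Pi.mulSingle 1 z₀, 1⟩, ⟨_, rfl⟩⟩
  have hue' : psi V χ (q u) = psi V χ ⟨Pi.mulSingle 1 z₀, 1⟩ := congrArg Subtype.val hue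
  have hur : (q u).right = 1 := congrArg Prod.snd hue'
  have hut : tau V χ (q u) ≠ 1 := by
    intro h0
    apply hz
    have h1 := congrArg Prod.fst hue'
    rw [psi_fst, psi_fst, hur, h0, tau_single] at h1
    apply Subtype.ext
    change ((χ z₀ : V) : X) = 1
    change ((1 : V) : X) * 1 = ((χ z₀ : V) : X) * 1 at h1
    rw [mul_one, mul_one] at h1
    exact h1.symm
  -- an element of `Y` in the base with a nontrivial diagonal coordinate
  have hex : ∃ y : coordSub X (borel K), (y : SL K ≀ᵣ X) ∈ Y ∧ (y : SL K ≀ᵣ X).right = 1 ∧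
      ∃ c, (q y).left c ≠ 1 := by
    by_contra hno
    apply hut
    apply tau_eq_one
    intro v hv c
    obtain ⟨y, hy, hyr⟩ := hVY v hv
    by_contra hne
    apply hno
    have hyU : y ∈ coordSub X (borel K) := hH y (hY hy)
    refine ⟨⟨y, hyU⟩ * u * ⟨y, hyU⟩⁻¹ * u⁻¹, ?_, ?_, v * c, ?_⟩
    · change y * u * y⁻¹ * (u : SL K ≀ᵣ X)⁻¹ ∈ Y
      have e : y * u * y⁻¹ * (u : SL K ≀ᵣ X)⁻¹ = y * (u * y⁻¹ * (u : SL K ≀ᵣ X)⁻¹) := by group
      rw [e]
      exact Y.mul_mem hy (hYn _ hu _ (Y.inv_mem hy))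
    · change y.right * (u : SL K ≀ᵣ X).right * y.right⁻¹ * (u : SL K ≀ᵣ X).right⁻¹ = 1
      have e : (u : SL K ≀ᵣ X).right = 1 := hur
      rw [e]
      group
    · rw [map_mul, map_mul, map_mul, map_inv, map_inv, wr_left_comm _ _ hur]
      have e : (q ⟨y, hyU⟩).right = v := hyr
      rw [e, inv_mul_cancel_left]
      intro h1
      exact hne (mul_inv_eq_one.mp h1).symm
  obtain ⟨y, hyY, hyr, c₀, hc₀⟩ := hex
  obtain ⟨a, ha, ha1⟩ := exists_mem_ne_one hA1
  have hc₁ : ∃ c₁, a.left c₁ ≠ 1 := by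
    by_contra hno
    apply ha1
    ext c
    · by_contra h1
      apply hno
      refine ⟨c, ?_⟩
      intro h2
      apply h1
      rw [h2]
      rfl
    · exact hAb a ha
  obtain ⟨c₁, hc₁⟩ := hc₁
  obtain ⟨g, hg, hgr⟩ := h.exists_right hX (c₁ * c₀⁻¹)
  obtain ⟨y₁, hy₁⟩ : ∃ y₁ : coordSub X (borel K), y₁ = ⟨g, hH g hg⟩ * y * ⟨g, hH g hg⟩⁻¹ := ⟨_, rfl⟩
  have hy₁Y : (y₁ : SL K ≀ᵣ X) ∈ Y := by
    rw [hy₁]
    exact hYn g hg _ hyY
  have hy₁r : (y₁ : SL K ≀ᵣ X).right = 1 := by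
    rw [hy₁]
    change g.right * (y : SL K ≀ᵣ X).right * g.right⁻¹ = 1
    rw [hyr]
    group
  have hy₁c : (q y₁).left c₁ ≠ 1 := by
    rw [hy₁, map_mul, map_mul, map_inv,
      wr_left_conj_comm _ _ (show (q y).right = 1 from hyr)]
    have e : (q ⟨g, hH g hg⟩).right = c₁ * c₀⁻¹ := hgr
    have e2 : (c₁ * c₀⁻¹)⁻¹ * c₁ = c₀ := by group
    rw [e, e2]
    exact hc₀
  have hcomm := congrArg (fun w : SL K ≀ᵣ X => w.left c₁) (hc y₁ hy₁Y a ha)
  change ((y₁ : SL K ≀ᵣ X) * a).left c₁ = (a * (y₁ : SL K ≀ᵣ X)).left c₁ at hcomm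
  rw [wr_left_mul, wr_left_mul, hy₁r, hAb a ha, inv_one, one_mul] at hcomm
  have haB : a.left c₁ ∈ borel K := hH a (hA ha) c₁
  have hlam : lam K ⟨a.left c₁, haB⟩ = 1 := by
    obtain ⟨k, hk⟩ := hA2 a ha
    apply lam_eq_one_of_pow (k := k)
    apply Subtype.ext
    change (a.left c₁) ^ 2 ^ k = 1
    rw [← wr_left_pow a (hAb a ha), hk]
    rfl
  apply hc₁
  have := eq_one_of_commute (y := ⟨(y₁ : SL K ≀ᵣ X).left c₁, y₁.2 c₁⟩) (u := ⟨a.left c₁, haB⟩)
    hy₁c hlam (Subtype.ext hcomm)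
  exact congrArg Subtype.val this

end Pool.Agent.CoveringSubgroups
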