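import Mathlib

/-!
# Formations, local formations and covering subgroups

All classes are classes of finite groups (groups are taken in `Type`).
-/

set_option autoImplicit false

namespace Pool.Agent.CoveringSubgroups

/-- A class of groups. -/
abbrev GroupClass : Type 1 := ∀ (G : Type) [Group G], Prop

/-- `F` is a formation: a nonempty class of finite groups, closed under isomorphisms, quotients and
subdirect products. -/
structure IsFormation (F : GroupClass) : Prop where
  finite : ∀ (G : Type) [Group G], F G → Finite G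
  nonempty : ∃ (G : Type) (_ : Group G), F G
  iso : ∀ (G H : Type) [Group G] [Group H], (G ≃* H) → F G → F H
  quotient : ∀ (G : Type) [Group G] (N : Subgroup G) [N.Normal], F G → F (G ⧸ N)
  subdirect : ∀ (G : Type) [Group G] [Finite G] (N₁ N₂ : Subgroup G) [N₁.Normal] [N₂.Normal],
    F (G ⧸ N₁) → F (G ⧸ N₂) → F (G ⧸ (N₁ ⊓ N₂))

/-- `H / K` is a chief factor of `G`. -/
structure IsChiefFactor {G : Type} [Group G] (H K : Subgroup G) : Prop where
  normal_top : H.Normal
  normal_bot : K.Normal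
  lt : K < H
  eq_or_eq : ∀ M : Subgroup G, M.Normal → K ≤ M → M ≤ H → M = K ∨ M = H

/-- The centralizer `C_G(H / K)` of a factor of `G`, for normal subgroups `H`, `K` of `G`. -/
def factorCentralizer {G : Type} [Group G] (H K : Subgroup G) (hH : H.Normal) (_hK : K.Normal) :
    Subgroup G where
  carrier := {g | ∀ h ∈ H, g * h * g⁻¹ * h⁻¹ ∈ K}
  one_mem' := by
    intro h _
    simp [K.one_mem]
  mul_mem' := by
    intro a b ha hb h hh
    have h1 := ha _ (hH.conj_mem h hh b)
    have h2 := K.mul_mem h1 (hb h hh)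
    have e : a * b * h * (a * b)⁻¹ * h⁻¹ =
        a * (b * h * b⁻¹) * a⁻¹ * (b * h * b⁻¹)⁻¹ * (b * h * b⁻¹ * h⁻¹) := by group
    rw [e]; exact h2
  inv_mem' := by
    intro a ha h hh
    have h1 := K.inv_mem (ha _ (hH.conj_mem h hh a⁻¹))
    have e : a⁻¹ * h * a⁻¹⁻¹ * h⁻¹ = (a * (a⁻¹ * h * a⁻¹⁻¹) * a⁻¹ * (a⁻¹ * h * a⁻¹⁻¹)⁻¹)⁻¹ := by
      group
    rw [e]; exact h1

lemma mem_factorCentralizer {G : Type} [Group G] {H K : Subgroup G} {hH : H.Normal}
    {hK : K.Normal} {g : G} :
    g ∈ factorCentralizer H K hH hK ↔ ∀ h ∈ H, g * h * g⁻¹ * h⁻¹ ∈ K := Iff.rfl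

instance factorCentralizer_normal {G : Type} [Group G] (H K : Subgroup G) (hH : H.Normal)
    (hK : K.Normal) : (factorCentralizer H K hH hK).Normal where
  conj_mem := by
    intro g hg x h hh
    have h1 := hK.conj_mem _ (hg _ (hH.conj_mem h hh x⁻¹)) x
    have e : x * g * x⁻¹ * h * (x * g * x⁻¹)⁻¹ * h⁻¹ =
        x * (g * (x⁻¹ * h * x⁻¹⁻¹) * g⁻¹ * (x⁻¹ * h * x⁻¹⁻¹)⁻¹) * x⁻¹ := by group
    rw [e]; exact h1

/-- `F` is a local formation: `f` assigns to each prime `p` a formation or the empty class, and a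
finite group `G` is in `F` exactly when `G / C_G(H / K) ∈ f p` for every chief factor `H / K` of `G`
and every prime `p` dividing `|H / K|`. -/
def IsLocallyDefinedBy (F : GroupClass) (f : ℕ → GroupClass) : Prop :=
  (∀ p : ℕ, p.Prime → IsFormation (f p) ∨ ∀ (G : Type) [Group G], ¬ f p G) ∧
  ∀ (G : Type) [Group G] [Finite G], F G ↔
    ∀ (H K : Subgroup G) (h : IsChiefFactor H K) (p : ℕ), p.Prime → p ∣ K.relIndex H →
      f p (G ⧸ factorCentralizer H K h.normal_top h.normal_bot)

/-- `F` is a local formation. -/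
def IsLocalFormation (F : GroupClass) : Prop :=
  IsFormation F ∧ ∃ f : ℕ → GroupClass, IsLocallyDefinedBy F f

/-- `H` is an `F`-covering subgroup of `G`: `H ∈ F`, and `U = H N` whenever `H ≤ U ≤ G`, `N` is
normal in `U` and `U / N ∈ F`. -/
def IsCovering (F : GroupClass) {G : Type} [Group G] (H : Subgroup G) : Prop :=
  F H ∧ ∀ U : Subgroup G, H ≤ U → ∀ (N : Subgroup U) [N.Normal], F (U ⧸ N) →
    ∀ u : U, ∃ h : U, ∃ n : U, (h : G) ∈ H ∧ n ∈ N ∧ u = h * n

/-- `G` has an `F`-covering subgroup. -/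
def HasCovering (F : GroupClass) (G : Type) [Group G] : Prop :=
  ∃ H : Subgroup G, IsCovering F H

end Pool.Agent.CoveringSubgroups
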