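import Pool.Agent.Lib.MP_7252b7_al_h61.Chief

/-!
# Local formations of 2-closed soluble groups
-/

set_option autoImplicit false

namespace Pool.Agent.CoveringSubgroups

open Subgroup

lemma IsFormation.of_quotient_bot {F : GroupClass} (hF : IsFormation F) {G : Type} [Group G]
    (N : Subgroup G) [N.Normal] (h : N = ⊥) (hN : F (G ⧸ N)) : F G :=
  hF.iso _ _ ((QuotientGroup.quotientMulEquivOfEq h).trans QuotientGroup.quotientBot) hN

lemma card_quotient_lt {G : Type} [Group G] [Finite G] (M : Subgroup G) (hM : M ≠ ⊥) :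
    Nat.card (G ⧸ M) < Nat.card G := by
  have h1 : Nat.card G = Nat.card (G ⧸ M) * Nat.card M := M.card_eq_card_quotient_mul_card_subgroup
  have h2 : 1 < Nat.card M := by
    have := (Subgroup.nontrivial_iff_ne_bot M).mpr hM
    exact Finite.one_lt_card
  have h3 : 0 < Nat.card (G ⧸ M) := Nat.card_pos
  rw [h1]
  exact lt_mul_of_one_lt_right h3 h2

/-- reduction to a minimal normal subgroup -/
lemma exists_min_violation {F : GroupClass} (hF : IsFormation F) (n : ℕ) :
    ∀ (G : Type) [Group G] [Finite G] (N : Subgroup G) [N.Normal], Nat.card G = n →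
      IsPGroup 2 N → F (G ⧸ N) → ¬ F G →
      ∃ (Γ : Type) (_ : Group Γ) (_ : Finite Γ) (M : Subgroup Γ), IsMinNormal M ∧
        IsPGroup 2 M ∧ (∀ [M.Normal], F (Γ ⧸ M)) ∧ ¬ F Γ := by
  induction n using Nat.strong_induction_on with
  | _ n ih =>
    intro G _ _ N _ hn hN hFN hG
    have hNb : N ≠ ⊥ := fun h => hG (hF.of_quotient_bot N h hFN)
    obtain ⟨M, hM, hMN⟩ := exists_isMinNormal N hNb
    have hMn := hM.normal
    by_cases hFM : F (G ⧸ M)
    · exact ⟨G, inferInstance, inferInstance, M, hM, hN.to_le hMN, hFM, hG⟩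
    · have h1 : Nat.card (G ⧸ M) < n := by
        rw [← hn]
        exact card_quotient_lt M hM.ne_bot
      have h2 : F ((G ⧸ M) ⧸ N.map (QuotientGroup.mk' M)) :=
        hF.iso _ _ (QuotientGroup.quotientQuotientEquivQuotient M N hMN).symm hFN
      exact ih _ h1 (G ⧸ M) (N.map (QuotientGroup.mk' M)) rfl (hN.map _) h2 hFM

/-- the minimal counterexample of odd order -/
lemma exists_min_X {F g : GroupClass} (hF : IsFormation F) (hg : IsFormation g)
    (hsol : ∀ (G : Type) [Group G], F G → Group.IsSolvable G)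
    (hex : ∃ (X : Type) (_ : Group X) (_ : Finite X), Odd (Nat.card X) ∧ F X ∧ ¬ g X) :
    ∃ (X : Type) (_ : Group X) (_ : Finite X) (V : Subgroup X) (_ : V.Normal)
      (_ : IsMulCommutative V), F X ∧ Odd (Nat.card X) ∧ V ≠ ⊥ ∧
        ∀ (N : Subgroup X) [N.Normal], g (X ⧸ N) → V ≤ N := by
  classical
  have hex' : ∃ n : ℕ, ∃ (X : Type) (_ : Group X) (_ : Finite X), Nat.card X = n ∧
      Odd (Nat.card X) ∧ F X ∧ ¬ g X := by
    obtain ⟨X, i1, i2, h⟩ := hex
    exact ⟨_, X, i1, i2, rfl, h⟩
  obtain ⟨X, i1, i2, hn, hodd, hX, hgX⟩ := Nat.find_spec hex'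
  have hmin : ∀ (Y : Type) [Group Y] [Finite Y], Nat.card Y < Nat.card X → Odd (Nat.card Y) →
      F Y → g Y := by
    intro Y _ _ hY hYo hFY
    by_contra hgY
    rw [hn] at hY
    exact Nat.find_min hex' hY ⟨Y, inferInstance, inferInstance, rfl, hYo, hFY, hgY⟩
  have hXs := hsol X hX
  have htop : (⊤ : Subgroup X) ≠ ⊥ := by
    intro h
    have : Subsingleton X := by
      constructor
      intro a b
      have ha : a ∈ (⊤ : Subgroup X) := mem_top a
      have hb : b ∈ (⊤ : Subgroup X) := mem_top b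
      rw [h, mem_bot] at ha hb
      rw [ha, hb]
    exact hgX hg.of_subsingleton
  obtain ⟨V, hV, -⟩ := exists_isMinNormal (⊤ : Subgroup X) htop
  have hVn := hV.normal
  have hVc : IsMulCommutative V := ⟨⟨fun a b => Subtype.ext (hV.comm a a.2 b b.2)⟩⟩
  refine ⟨X, i1, i2, V, hVn, hVc, hX, hodd, hV.ne_bot, ?_⟩
  intro N hN hgN
  by_contra hle
  have hinf : V ⊓ N = ⊥ := by
    have hn' : (V ⊓ N).Normal := inferInstance
    rcases hV.eq_or_eq _ hn' inf_le_left with h | h
    · exact h
    · exact absurd (inf_eq_left.mp h) hle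
  have hgV : g (X ⧸ V) := by
    apply hmin (X ⧸ V) (card_quotient_lt V hV.ne_bot)
    · exact Odd.of_dvd_nat hodd (Subgroup.card_quotient_dvd_card V)
    · exact hF.quotient X V hX
  have h1 := hg.subdirect X V N hgV hgN
  exact hgX (hg.of_quotient_bot _ hinf h1)

/-- The theorem. -/
theorem covering_iff {F : GroupClass} (hF : IsLocalFormation F)
    (hsol : ∀ (G : Type) [Group G], F G → Group.IsSolvable G)
    (hcl : ∀ (G : Type) [Group G], F G → ∀ P : Sylow 2 G, P.toSubgroup.Normal)
    (heven : ∃ (G : Type) (_ : Group G), F G ∧ 2 ∣ Nat.card G) :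
    (∀ (G : Type) [Group G] [Finite G], HasCovering F G) ↔
      (∀ (G : Type) [Group G] [Finite G] (N : Subgroup G) [N.Normal], IsPGroup 2 N →
        F (G ⧸ N) → F G) ∧
      (∀ (G : Type) [Group G] [Finite G], Odd (Nat.card G) → HasCovering F G) := by
  have : Fact (Nat.Prime 2) := ⟨Nat.prime_two⟩
  obtain ⟨hFo, f, hf⟩ := hF
  constructor
  · intro hall
    refine ⟨?_, fun G _ _ _ => hall G⟩
    intro G _ _ N _ hN hFN
    by_contra hG
    obtain ⟨Γ, iΓ, iΓf, M, hM, hM2, hFM, hΓ⟩ := exists_min_violation hFo _ G N rfl hN hFN hG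
    have hMn := hM.normal
    have hFM' : F (Γ ⧸ M) := hFM
    -- the value of `f` at `2` is a formation
    obtain ⟨E, iE, hE, hEc⟩ := heven
    have hEfin : Finite E := hFo.finite E hE
    obtain ⟨H₀, K₀, hHK, hrel⟩ := exists_chief_even hEc
    have hf2 : IsFormation (f 2) := by
      rcases hf.1 2 Nat.prime_two with h | h
      · exact h
      · exact absurd ((hf.2 E).mp hE H₀ K₀ hHK 2 Nat.prime_two hrel) (h _)
    have hF2 : F ℤˣ := by
      rw [hf.2]
      intro H K h p hp hpd
      have h1 : p ∣ 2 := by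
        have h2 : K.relIndex H ∣ Nat.card H := relIndex_dvd_card _ _
        have h3 : Nat.card H ∣ Nat.card ℤˣ := card_subgroup_dvd_card H
        have h4 : Nat.card ℤˣ = 2 := by
          rw [Nat.card_eq_fintype_card, Fintype.card_units_int]
        rw [h4] at h3
        exact hpd.trans (h2.trans h3)
      have h2 : p = 2 := (Nat.prime_dvd_prime_iff_eq hp Nat.prime_two).mp h1
      subst h2
      have hC : factorCentralizer H K h.normal_top h.normal_bot = ⊤ := by
        rw [eq_top_iff]
        intro g _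
        rw [mem_factorCentralizer]
        intro x _
        rw [mul_comm g x, mul_inv_cancel_right, mul_inv_cancel]
        exact K.one_mem
      have : Subsingleton (ℤˣ ⧸ factorCentralizer H K h.normal_top h.normal_bot) := by
        rw [hC]
        exact QuotientGroup.subsingleton_quotient_top
      exact hf2.of_subsingleton
    -- the odd group
    have hnot := not_mem_of_quotient hf M hM hM2 hFM hΓ
    have hMs : Group.IsSolvable M := by
      have := hM2.isNilpotent
      infer_instance
    have hΓMs : Group.IsSolvable (Γ ⧸ M) := hsol _ hFM'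
    have hΓs : Group.IsSolvable Γ :=
      Group.isSolvable_of_ker_le_range M.subtype (QuotientGroup.mk' M) (by
        rw [QuotientGroup.ker_mk', range_subtype])
    have hMC : M ≤ factorCentralizer M ⊥ hM.isChiefFactor.normal_top
        hM.isChiefFactor.normal_bot := by
      intro a ha
      rw [mem_factorCentralizer]
      intro b hb
      rw [hM.comm a ha b hb, mul_inv_cancel_right, mul_inv_cancel]
      exact mem_bot.mpr rfl
    have hFX₀ : F (Γ ⧸ factorCentralizer M ⊥ hM.isChiefFactor.normal_top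
        hM.isChiefFactor.normal_bot) := by
      apply hFo.of_surjective (QuotientGroup.map M (factorCentralizer M ⊥
        hM.isChiefFactor.normal_top hM.isChiefFactor.normal_bot) (MonoidHom.id Γ)
        (by simpa using hMC)) _ hFM'
      intro x
      obtain ⟨x, rfl⟩ := QuotientGroup.mk'_surjective _ x
      exact ⟨(x : Γ ⧸ M), rfl⟩
    have hodd := odd_card_quotient M hM hM2 (hcl _ hFX₀)
    obtain ⟨X, iX, iXf, V, hVn, hVc, hX, hXodd, hV, hVN⟩ := exists_min_X hFo hf2 hsol
      ⟨_, inferInstance, inferInstance, hodd, hFX₀, hnot⟩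
    have hloc : ∀ (G : Type) [Group G] [Finite G] (A : Subgroup G) (h : IsChiefFactor A ⊥), F G →
      2 ∣ Nat.card A → f 2 (G ⧸ factorCentralizer A ⊥ h.normal_top h.normal_bot) := by
      intro G _ _ A h hG h2
      exact (hf.2 G).mp hG A ⊥ h 2 Nat.prime_two (by rwa [relIndex_bot_left])
    obtain ⟨G', iG', iGf', hno⟩ := not_hasCovering hFo hf2 hsol hcl hF2 hloc hX hXodd V hV hVN
    exact hno (hall G')
  · rintro ⟨ha, hb⟩ G _ _
    obtain ⟨P⟩ : Nonempty (Sylow 2 G) := inferInstance
    apply hasCovering_of_normalizer (p := 2) hFo.iso hFo.quotient hcl ha P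
    apply hb
    have h1 : ¬ 2 ∣ (P : Subgroup G).index := P.not_dvd_index
    have h2 : (P : Subgroup G).relIndex (normalizer ((P : Subgroup G) : Set G)) ∣
        (P : Subgroup G).index := relIndex_dvd_index_of_le le_normalizer
    rw [← Nat.not_even_iff_odd, even_iff_two_dvd]
    intro h3
    exact h1 (h3.trans h2)

end Pool.Agent.CoveringSubgroups
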