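import Pool.Agent.Lib.MP_7252b7_al_h61.Core

/-!
# A group without covering subgroup
-/

set_option autoImplicit false

namespace Pool.Agent.CoveringSubgroups

open RegularWreathProduct
open scoped IsMulCommutative

/-- A field of characteristic two whose multiplicative group maps nontrivially to a given group of
odd order. -/
lemma exists_chi {V : Type} [Group V] [Finite V] [Nontrivial V] (hodd : Odd (Nat.card V)) :
    ∃ (K : Type) (_ : Field K) (_ : CharP K 2) (_ : Finite K) (χ : Kˣ →* V) (z : Kˣ), χ z ≠ 1 := by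
  have hV1 : Nat.card V ≠ 1 := Finite.one_lt_card.ne'
  obtain ⟨s, hs, hsV⟩ := Nat.exists_prime_and_dvd hV1
  have := Fact.mk hs
  obtain ⟨v, hv⟩ := exists_prime_orderOf_dvd_card' s hsV
  have hs2 : s ≠ 2 := by
    rintro rfl
    exact (Nat.not_even_iff_odd.mpr hodd) (even_iff_two_dvd.mpr hsV)
  have hs3 : 2 < s := lt_of_le_of_ne hs.two_le hs2.symm
  have hf2 : Fact (Nat.Prime 2) := ⟨Nat.prime_two⟩
  have hn : s - 1 ≠ 0 := by omega
  have hcard : Nat.card (GaloisField 2 (s - 1)) = 2 ^ (s - 1) := GaloisField.card 2 (s - 1) hn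
  have hfin : Finite (GaloisField 2 (s - 1)) := inferInstance
  have hu : Nat.card (GaloisField 2 (s - 1))ˣ = 2 ^ (s - 1) - 1 := by
    rw [Nat.card_units, hcard]
  have hdvd : s ∣ Nat.card (GaloisField 2 (s - 1))ˣ := by
    rw [hu]
    have hc : IsCoprime (2 : ℤ) (s : ℤ) := by
      exact Nat.isCoprime_iff_coprime.mpr ((Nat.coprime_primes Nat.prime_two hs).mpr hs2.symm)
    have h1 := Int.ModEq.pow_card_sub_one_eq_one hs hc
    have h2 : (s : ℤ) ∣ 2 ^ (s - 1) - 1 := h1.symm.dvd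
    have h3 : (((2 ^ (s - 1) - 1 : ℕ)) : ℤ) = 2 ^ (s - 1) - 1 := by
      rw [Nat.cast_sub (Nat.one_le_two_pow)]
      push_cast
      rfl
    rw [← h3] at h2
    exact Int.natCast_dvd_natCast.mp h2
  obtain ⟨z, hz⟩ := IsCyclic.exists_generator (α := (GaloisField 2 (s - 1))ˣ)
  have hord : orderOf v ∣ orderOf z := by
    rw [hv, orderOf_eq_card_of_forall_mem_zpowers hz]
    exact hdvd
  refine ⟨GaloisField 2 (s - 1), inferInstance, inferInstance, hfin,
    monoidHomOfForallMemZpowers hz hord, z, ?_⟩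
  rw [monoidHomOfForallMemZpowers_apply_gen]
  intro h
  rw [h, orderOf_one] at hv
  omega

/-- the evaluation of base elements of `H` at `1` -/
def evalBase {S X : Type} [Group S] [Group X] (H : Subgroup (S ≀ᵣ X)) :
    (((rightHom : S ≀ᵣ X →* X).comp H.subtype).ker) →* baseD H where
  toFun u := ⟨((u : H) : S ≀ᵣ X).left 1, ((u : H) : S ≀ᵣ X), (u : H).2, u.2, rfl⟩
  map_one' := rfl
  map_mul' u v := by
    apply Subtype.ext
    change ((u : H) : S ≀ᵣ X).left 1 * ((v : H) : S ≀ᵣ X).left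
      (((u : H) : S ≀ᵣ X).right⁻¹ * 1) = ((u : H) : S ≀ᵣ X).left 1 * ((v : H) : S ≀ᵣ X).left 1
    have h : ((u : H) : S ≀ᵣ X).right = 1 := u.2
    rw [h, inv_one, one_mul]

lemma evalBase_surjective {S X : Type} [Group S] [Group X] (H : Subgroup (S ≀ᵣ X)) :
    Function.Surjective (evalBase H) := by
  rintro ⟨s, h, hh, hr, rfl⟩
  exact ⟨⟨⟨h, hh⟩, hr⟩, rfl⟩

lemma baseD_odd {S X : Type} [Group S] [Group X] (H : Subgroup (S ≀ᵣ X)) [Finite H]
    (h : Odd (Nat.card H)) : Odd (Nat.card (baseD H)) := by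
  have h1 : Nat.card (baseD H) ∣ Nat.card (((rightHom : S ≀ᵣ X →* X).comp H.subtype).ker) :=
    Subgroup.card_dvd_of_surjective _ (evalBase_surjective H)
  have h2 : Nat.card (((rightHom : S ≀ᵣ X →* X).comp H.subtype).ker) ∣ Nat.card H :=
    Subgroup.card_subgroup_dvd_card _
  exact Odd.of_dvd_nat h (h1.trans h2)

lemma baseD_solvable {S X : Type} [Group S] [Group X] (H : Subgroup (S ≀ᵣ X))
    (h : Group.IsSolvable H) : Group.IsSolvable (baseD H) :=
  Group.isSolvable_of_surjective (evalBase_surjective H)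

lemma eq_one_of_two_pow {X : Type} [Group X] (hX : Odd (Nat.card X)) {x : X} {k : ℕ}
    (h : x ^ 2 ^ k = 1) : x = 1 := by
  have h1 : orderOf x ∣ 2 ^ k := orderOf_dvd_of_pow_eq_one h
  have h2 : orderOf x ∣ Nat.card X := orderOf_dvd_natCard x
  have h3 : Nat.Coprime (2 ^ k) (Nat.card X) :=
    Nat.Coprime.pow_left k ((Nat.coprime_two_left).mpr hX)
  exact orderOf_eq_one_iff.mp (Nat.eq_one_of_dvd_coprimes h3 h1 h2)

lemma right_pow {S X : Type} [Group S] [Group X] (w : S ≀ᵣ X) (n : ℕ) :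
    (w ^ n).right = w.right ^ n :=
  map_pow (rightHom (D := S) (Q := X)) w n

/-- A covering candidate of even order with a normal Sylow 2-subgroup is conjugate into
`B ≀ X`. -/
lemma exists_conj_even {X : Type} [Group X] [Finite X] (hX : Odd (Nat.card X)) {K : Type}
    [Field K] [CharP K 2] [Finite K] (H : Subgroup (SL K ≀ᵣ X))
    (hs : ∀ x : X, ∃ u ∈ H, u.right = x) (hP : ∀ P : Sylow 2 H, (P : Subgroup H).Normal)
    (he : 2 ∣ Nat.card H) :
    ∃ m : SL K ≀ᵣ X, m.right = 1 ∧ ∀ h ∈ H, ∀ c, (m * h * m⁻¹).left c ∈ borel K := by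
  have : Fact (Nat.Prime 2) := ⟨Nat.prime_two⟩
  obtain ⟨m₁, hm₁, hm₁D⟩ := exists_conj_baseD H hs
  obtain ⟨P⟩ : Nonempty (Sylow 2 H) := inferInstance
  have hPn := hP P
  have hP1 : (P : Subgroup H) ≠ ⊥ := P.ne_bot_of_dvd_card he
  let A : Subgroup (SL K ≀ᵣ X) := (P : Subgroup H).map H.subtype
  have hAH : ∀ a ∈ A, a ∈ H := by
    rintro _ ⟨a, _, rfl⟩
    exact a.2
  have hA2 : ∀ a ∈ A, ∃ k : ℕ, a ^ 2 ^ k = 1 := by
    rintro _ ⟨a, ha, rfl⟩
    obtain ⟨k, hk⟩ := P.2 ⟨a, ha⟩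
    refine ⟨k, ?_⟩
    have h1 := congrArg Subtype.val hk
    exact congrArg Subtype.val h1
  have hAr : ∀ a ∈ A, a.right = 1 := by
    intro a ha
    obtain ⟨k, hk⟩ := hA2 a ha
    apply eq_one_of_two_pow hX (k := k)
    rw [← right_pow, hk]
    rfl
  have hAn : ∀ u ∈ H, ∀ a ∈ A, u⁻¹ * a * u ∈ A := by
    rintro u hu _ ⟨a, ha, rfl⟩
    have h1 := hPn.conj_mem a ha (⟨u, hu⟩ : H)⁻¹
    refine ⟨_, h1, ?_⟩
    change u⁻¹ * (a : SL K ≀ᵣ X) * u⁻¹⁻¹ = u⁻¹ * a * u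
    rw [inv_inv]
  have hA1 : ∃ a ∈ A, a ≠ 1 := by
    obtain ⟨a, ha, ha1⟩ := exists_mem_ne_one hP1
    exact ⟨a, ⟨a, ha, rfl⟩, fun h => ha1 (Subtype.ext h)⟩
  have hB2 : IsPGroup 2 (baseD A) := by
    rintro ⟨s, a, ha, har, rfl⟩
    obtain ⟨k, hk⟩ := hA2 a ha
    refine ⟨k, ?_⟩
    apply Subtype.ext
    change (a.left 1) ^ 2 ^ k = 1
    rw [← wr_left_pow a har, hk]
    rfl
  have hB1 : baseD A ≠ ⊥ := by
    obtain ⟨a, ha, ha1⟩ := hA1
    obtain ⟨c, hc⟩ : ∃ c, a.left c ≠ 1 := by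
      by_contra hno
      apply ha1
      ext c
      · by_contra h1
        apply hno
        refine ⟨c, ?_⟩
        intro h2
        apply h1
        rw [h2]
        rfl
      · exact hAr a ha
    obtain ⟨t, ht, htr⟩ := hs c
    have h1 : (t⁻¹ * a * t).left 1 ∈ baseD A := by
      refine ⟨_, hAn t ht a ha, ?_, rfl⟩
      rw [mul_right, mul_right, inv_right, hAr a ha]
      group
    intro hbot
    rw [hbot, Subgroup.mem_bot, wr_left_mul, wr_left_mul, wr_left_inv, mul_right, inv_right, htr,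
      hAr a ha, mul_one, mul_one, inv_inv, mul_one] at h1
    have e0 : (c⁻¹ * 1)⁻¹ = c := by group
    rw [e0] at h1
    apply hc
    have e : a.left c = t.left c * ((t.left c)⁻¹ * a.left c * t.left c) * (t.left c)⁻¹ := by group
    rw [e, h1, mul_one, mul_inv_cancel]
  have hnorm : ∀ d ∈ baseD H, ∀ a ∈ baseD A, d⁻¹ * a * d ∈ baseD A := by
    rintro _ ⟨d, hd, hdr, rfl⟩ _ ⟨a, ha, har, rfl⟩
    refine ⟨_, hAn d hd a ha, ?_, ?_⟩
    · rw [mul_right, mul_right, inv_right, har, hdr]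
      group
    · rw [wr_left_mul, wr_left_mul, wr_left_inv, mul_right, inv_right, hdr, har, one_mul, inv_one,
        inv_one, one_mul, inv_one, one_mul]
  obtain ⟨n, hn⟩ := exists_conj_borel (baseD H) (baseD A) hB2 hB1 hnorm
  refine ⟨⟨fun _ => n, 1⟩ * m₁, ?_, ?_⟩
  · rw [mul_right, hm₁, mul_one]
  · intro h hh c
    have e : (⟨fun _ => n, 1⟩ * m₁) * h * (⟨fun _ => n, 1⟩ * m₁)⁻¹ =
        (⟨fun _ => n, 1⟩ : SL K ≀ᵣ X) * (m₁ * h * m₁⁻¹) * (⟨fun _ => n, 1⟩ : SL K ≀ᵣ X)⁻¹ := by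
      group
    rw [e, wr_left_conj _ _ rfl]
    exact hn _ (hm₁D h hh c)

end Pool.Agent.CoveringSubgroups
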