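import Pool.Agent.Lib.MP_7252b7_al_h61.Neg

/-!
# A group without covering subgroup
-/

set_option autoImplicit false

namespace Pool.Agent.CoveringSubgroups

open RegularWreathProduct
open scoped IsMulCommutative

lemma IsMinNormal.isChiefFactor {G : Type} [Group G] {M : Subgroup G} (h : IsMinNormal M) :
    IsChiefFactor M ⊥ where
  normal_top := h.normal
  normal_bot := inferInstance
  lt := bot_lt_iff_ne_bot.mpr h.ne_bot
  eq_or_eq := fun L hL _ hLM => h.eq_or_eq L hL hLM

lemma IsFormation.of_surjective {F : GroupClass} (hF : IsFormation F) {A B : Type} [Group A]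
    [Group B] (f : A →* B) (hf : Function.Surjective f) (hA : F A) : F B :=
  hF.iso _ _ (QuotientGroup.quotientKerEquivOfSurjective f hf) (hF.quotient A f.ker hA)

/-- The negative theorem. -/
theorem not_hasCovering {F g : GroupClass} (hF : IsFormation F) (hg : IsFormation g)
    (hsol : ∀ (G : Type) [Group G], F G → Group.IsSolvable G)
    (hcl : ∀ (G : Type) [Group G], F G → ∀ P : Sylow 2 G, (P : Subgroup G).Normal)
    (hF2 : F ℤˣ)
    (hloc : ∀ (G : Type) [Group G] [Finite G] (A : Subgroup G) (h : IsChiefFactor A ⊥), F G →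
      2 ∣ Nat.card A → g (G ⧸ factorCentralizer A ⊥ h.normal_top h.normal_bot))
    {X : Type} [Group X] [Finite X] (hX : F X) (hXodd : Odd (Nat.card X)) (V : Subgroup X)
    [V.Normal] [IsMulCommutative V] (hV : V ≠ ⊥)
    (hVN : ∀ (N : Subgroup X) [N.Normal], g (X ⧸ N) → V ≤ N) :
    ∃ (G : Type) (_ : Group G) (_ : Finite G), ¬ HasCovering F G := by
  have : Fact (Nat.Prime 2) := ⟨Nat.prime_two⟩
  have hVnt : Nontrivial V := (Subgroup.nontrivial_iff_ne_bot V).mpr hV
  have hVodd : Odd (Nat.card V) := Odd.of_dvd_nat hXodd (Subgroup.card_subgroup_dvd_card V)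
  obtain ⟨K, iK, iC, iF, χ, z, hz⟩ := exists_chi (V := V) hVodd
  refine ⟨SL K ≀ᵣ X, inferInstance, inferInstance, ?_⟩
  rintro ⟨H, hH⟩
  have hC : Cov F H := hH.toCov hF.iso
  have hs := fun x => hC.exists_right hX x
  by_cases he : 2 ∣ Nat.card H
  · -- even order
    obtain ⟨m, hm, hmB⟩ := exists_conj_even hXodd H hs (hcl H hC.mem) he
    let H' := H.map (MulAut.conj m).toMonoidHom
    have hC' : Cov F H' := hC.conj hF.iso m
    have hH'B : ∀ u ∈ H', ∀ c, u.left c ∈ borel K := by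
      rintro _ ⟨u, hu, rfl⟩ c
      exact hmB u hu c
    have he' : 2 ∣ Nat.card H' := by
      rw [← Nat.card_congr (H.equivMapOfInjective (MulAut.conj m).toMonoidHom
        (MulAut.conj m).injective).toEquiv]
      exact he
    obtain ⟨P⟩ : Nonempty (Sylow 2 H') := inferInstance
    have hPn := hcl H' hC'.mem P
    obtain ⟨A, hA, hAP⟩ := exists_isMinNormal (P : Subgroup H') (P.ne_bot_of_dvd_card he')
    have hA2 : ∀ a ∈ A, ∃ k : ℕ, a ^ 2 ^ k = 1 := by
      intro a ha
      obtain ⟨k, hk⟩ := P.2 ⟨a, hAP ha⟩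
      exact ⟨k, congrArg Subtype.val hk⟩
    have hA2' : IsPGroup 2 A := by
      rintro ⟨a, ha⟩
      obtain ⟨k, hk⟩ := hA2 a ha
      exact ⟨k, Subtype.ext hk⟩
    have hAc : 2 ∣ Nat.card A := by
      obtain ⟨n, hn⟩ := IsPGroup.iff_card.mp hA2'
      rw [hn]
      apply dvd_pow_self
      rintro rfl
      rw [pow_zero] at hn
      exact hA.ne_bot (Subgroup.card_eq_one.mp hn)
    have hgY := hloc H' A hA.isChiefFactor hC'.mem hAc
    let Y : Subgroup H' := factorCentralizer A ⊥ hA.isChiefFactor.normal_top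
      hA.isChiefFactor.normal_bot
    have hYn : Y.Normal := factorCentralizer_normal _ _ _ _
    let ρ : H' →* X := rightHom.comp H'.subtype
    have hρ : Function.Surjective ρ := by
      intro x
      obtain ⟨u, hu, hux⟩ := hC'.exists_right hX x
      exact ⟨⟨u, hu⟩, hux⟩
    have hYX : (Y.map ρ).Normal := hYn.map ρ hρ
    have hgX : g (X ⧸ Y.map ρ) := by
      apply hg.of_surjective (QuotientGroup.map Y (Y.map ρ) ρ (Subgroup.le_comap_map ρ Y)) _ hgY
      intro x
      obtain ⟨x, rfl⟩ := QuotientGroup.mk'_surjective _ x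
      obtain ⟨u, rfl⟩ := hρ x
      exact ⟨(u : H' ⧸ Y), rfl⟩
    have hVY := hVN (Y.map ρ) hgX
    apply Cov.false_of_even hF hX hC' hH'B V χ z hz (A.map H'.subtype) (Y.map H'.subtype)
    · rintro _ ⟨a, _, rfl⟩
      exact a.2
    · rintro _ ⟨a, ha, rfl⟩
      obtain ⟨k, hk⟩ := hA2 a ha
      exact ⟨k, congrArg Subtype.val hk⟩
    · rintro _ ⟨a, ha, rfl⟩
      obtain ⟨k, hk⟩ := hA2 a ha
      have h1 : (a : SL K ≀ᵣ X) ^ 2 ^ k = 1 := congrArg Subtype.val hk
      apply eq_one_of_two_pow hXodd (k := k)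
      rw [← right_pow]
      change ((a : SL K ≀ᵣ X) ^ 2 ^ k).right = 1
      rw [h1]
      rfl
    · intro h
      apply hA.ne_bot
      rw [eq_bot_iff]
      intro a ha
      have h1 : (a : SL K ≀ᵣ X) ∈ A.map H'.subtype := ⟨a, ha, rfl⟩
      rw [h, Subgroup.mem_bot] at h1
      rw [Subgroup.mem_bot]
      exact Subtype.ext h1
    · rintro _ ⟨a, _, rfl⟩
      exact a.2
    · rintro u hu _ ⟨y, hy, rfl⟩
      exact ⟨_, hYn.conj_mem y hy ⟨u, hu⟩, rfl⟩
    · rintro _ ⟨y, hy, rfl⟩ _ ⟨a, ha, rfl⟩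
      have h1 := hy a ha
      rw [Subgroup.mem_bot, mul_inv_eq_one, mul_inv_eq_iff_eq_mul] at h1
      exact congrArg Subtype.val h1
    · intro v hv
      obtain ⟨y, hy, hyv⟩ := hVY hv
      exact ⟨_, ⟨y, hy, rfl⟩, hyv⟩
  · -- odd order
    have hHodd : Odd (Nat.card H) := by
      rw [← Nat.not_even_iff_odd, even_iff_two_dvd]
      exact he
    obtain ⟨w, hw, hDw⟩ := exists_tr_flip (baseD H) (baseD_odd H hHodd)
      (baseD_solvable H (hsol H hC.mem)) ⟨z, fun h => hz (by rw [h, map_one])⟩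
    obtain ⟨m, hm, hmD⟩ := exists_conj_baseD H hs
    let H' := H.map (MulAut.conj m).toMonoidHom
    have hC' : Cov F H' := hC.conj hF.iso m
    have hH'odd : Odd (Nat.card H') := by
      rw [← Nat.card_congr (H.equivMapOfInjective (MulAut.conj m).toMonoidHom
        (MulAut.conj m).injective).toEquiv]
      exact hHodd
    have hne := ne_inv_of_tr hw
    obtain ⟨t, ht⟩ := exists_inverting hw
    apply Cov.false_of_odd hC' hH'odd (flip w) _ (eps w hne) _ hF2
    · rintro _ ⟨u, hu, rfl⟩ c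
      exact hDw (hmD u hu c)
    · intro e
      rcases Int.units_eq_one_or e with rfl | rfl
      · exact ⟨1, map_one _⟩
      · exact ⟨_, eps_of_inv hne ht⟩

end Pool.Agent.CoveringSubgroups
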