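import Mathlib

/-!
# Subgroups of `SL₂(K)`, `K` a field of characteristic two
-/

set_option autoImplicit false

namespace Pool.Agent.CoveringSubgroups

open Matrix

variable {K : Type} [Field K]

/-- `SL₂(K)` -/
abbrev SL (K : Type) [Field K] : Type := Matrix.SpecialLinearGroup (Fin 2) K

/-- matrix entries -/
def ent (g : SL K) (i j : Fin 2) : K := (g : Matrix (Fin 2) (Fin 2) K) i j

/-- a matrix from its entries -/
def mk2 (a b c d : K) (h : a * d - b * c = 1) : SL K :=
  ⟨!![a, b; c, d], by rw [det_fin_two_of]; exact h⟩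

lemma ent_mk2_00 (a b c d : K) (h : a * d - b * c = 1) : ent (mk2 a b c d h) 0 0 = a := rfl

lemma ent_mk2_01 (a b c d : K) (h : a * d - b * c = 1) : ent (mk2 a b c d h) 0 1 = b := rfl

lemma ent_mk2_10 (a b c d : K) (h : a * d - b * c = 1) : ent (mk2 a b c d h) 1 0 = c := rfl

lemma ent_mk2_11 (a b c d : K) (h : a * d - b * c = 1) : ent (mk2 a b c d h) 1 1 = d := rfl

lemma sl_det (g : SL K) : ent g 0 0 * ent g 1 1 - ent g 0 1 * ent g 1 0 = 1 := by
  have h := g.det_coe
  rw [det_fin_two] at h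
  exact h

lemma ent_mul (g h : SL K) (i j : Fin 2) :
    ent (g * h) i j = ent g i 0 * ent h 0 j + ent g i 1 * ent h 1 j := by
  unfold ent
  rw [Matrix.SpecialLinearGroup.coe_mul, mul_apply, Fin.sum_univ_two]

lemma sl_ext {g h : SL K} (h00 : ent g 0 0 = ent h 0 0) (h01 : ent g 0 1 = ent h 0 1)
    (h10 : ent g 1 0 = ent h 1 0) (h11 : ent g 1 1 = ent h 1 1) : g = h := by
  apply Matrix.SpecialLinearGroup.ext
  intro i j
  fin_cases i <;> fin_cases j
  · exact h00
  · exact h01
  · exact h10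
  · exact h11

lemma ent_one_00 : ent (1 : SL K) 0 0 = 1 := by
  unfold ent
  rw [Matrix.SpecialLinearGroup.coe_one, one_apply_eq]

lemma ent_one_11 : ent (1 : SL K) 1 1 = 1 := by
  unfold ent
  rw [Matrix.SpecialLinearGroup.coe_one, one_apply_eq]

lemma ent_one_01 : ent (1 : SL K) 0 1 = 0 := by
  unfold ent
  rw [Matrix.SpecialLinearGroup.coe_one, one_apply_ne (by decide)]

lemma ent_one_10 : ent (1 : SL K) 1 0 = 0 := by
  unfold ent
  rw [Matrix.SpecialLinearGroup.coe_one, one_apply_ne (by decide)]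

lemma ent_inv_00 (g : SL K) : ent g⁻¹ 0 0 = ent g 1 1 := by
  unfold ent
  rw [Matrix.SpecialLinearGroup.coe_inv, adjugate_fin_two]; rfl

lemma ent_inv_01 (g : SL K) : ent g⁻¹ 0 1 = - ent g 0 1 := by
  unfold ent
  rw [Matrix.SpecialLinearGroup.coe_inv, adjugate_fin_two]; rfl

lemma ent_inv_10 (g : SL K) : ent g⁻¹ 1 0 = - ent g 1 0 := by
  unfold ent
  rw [Matrix.SpecialLinearGroup.coe_inv, adjugate_fin_two]; rfl

lemma ent_inv_11 (g : SL K) : ent g⁻¹ 1 1 = ent g 0 0 := by
  unfold ent
  rw [Matrix.SpecialLinearGroup.coe_inv, adjugate_fin_two]; rfl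

/-- The upper triangular subgroup. -/
def borel (K : Type) [Field K] : Subgroup (SL K) where
  carrier := {g | ent g 1 0 = 0}
  one_mem' := ent_one_10
  mul_mem' := by
    intro a b ha hb
    change ent (a * b) 1 0 = 0
    have ha' : ent a 1 0 = 0 := ha
    have hb' : ent b 1 0 = 0 := hb
    rw [ent_mul, ha', hb']; ring
  inv_mem' := by
    intro a ha
    change ent a⁻¹ 1 0 = 0
    have ha' : ent a 1 0 = 0 := ha
    rw [ent_inv_10, ha', neg_zero]

lemma mem_borel {g : SL K} : g ∈ borel K ↔ ent g 1 0 = 0 := Iff.rfl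

/-- The diagonal part of an upper triangular matrix. -/
def lam (K : Type) [Field K] : borel K →* Kˣ where
  toFun g := ⟨ent (g : SL K) 0 0, ent (g : SL K) 1 1, by
    have h := sl_det (g : SL K)
    have h' : ent (g : SL K) 1 0 = 0 := g.2
    rw [h'] at h; linear_combination h, by
    have h := sl_det (g : SL K)
    have h' : ent (g : SL K) 1 0 = 0 := g.2
    rw [h'] at h; linear_combination h⟩
  map_one' := by
    apply Units.ext
    exact ent_one_00
  map_mul' a b := by
    apply Units.ext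
    have h' : ent (b : SL K) 1 0 = 0 := b.2
    change ent ((a : SL K) * (b : SL K)) 0 0 = ent (a : SL K) 0 0 * ent (b : SL K) 0 0
    rw [ent_mul, h']; ring

lemma lam_val (g : borel K) : ((lam K g : Kˣ) : K) = ent (g : SL K) 0 0 := rfl

/-- diagonal matrices -/
def diagU (z : Kˣ) : borel K :=
  ⟨mk2 (z : K) 0 0 ((z⁻¹ : Kˣ) : K) (by rw [Units.mul_inv]; ring), rfl⟩

lemma lam_diagU (z : Kˣ) : lam K (diagU z) = z := by
  apply Units.ext
  rfl

section chartwo

variable [CharP K 2]

/-- An upper triangular matrix with nontrivial diagonal part commutes with no nontrivial unipotent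
upper triangular matrix. -/
lemma eq_one_of_commute {y u : borel K} (hy : lam K y ≠ 1) (hu : lam K u = 1)
    (h : y * u = u * y) : u = 1 := by
  have hu0 : ent (u : SL K) 0 0 = 1 := by
    have := congrArg (fun z : Kˣ => (z : K)) hu
    simpa [lam_val] using this
  have hu1 : ent (u : SL K) 1 0 = 0 := u.2
  have hu2 : ent (u : SL K) 1 1 = 1 := by
    have := sl_det (u : SL K)
    rw [hu0, hu1] at this
    linear_combination this
  have hy1 : ent (y : SL K) 1 0 = 0 := y.2
  have hyd := sl_det (y : SL K)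
  rw [hy1] at hyd
  have h01 : ent ((y : SL K) * (u : SL K)) 0 1 = ent ((u : SL K) * (y : SL K)) 0 1 := by
    have := congrArg (fun z : borel K => ent (z : SL K) 0 1) h
    exact this
  rw [ent_mul, ent_mul, hu0, hu2] at h01
  have h2 : (ent (y : SL K) 0 0 - ent (y : SL K) 1 1) * ent (u : SL K) 0 1 = 0 := by
    linear_combination h01
  have h6 : (2 : K) = 0 := CharTwo.two_eq_zero
  have h3 : ent (y : SL K) 0 0 - ent (y : SL K) 1 1 ≠ 0 := by
    intro h4
    have h5 : (ent (y : SL K) 0 0 - 1) ^ 2 = 0 := by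
      linear_combination hyd + ent (y : SL K) 0 0 * h4 + (1 - ent (y : SL K) 0 0) * h6
    have h7 : ent (y : SL K) 0 0 = 1 := by
      have := pow_eq_zero_iff (two_ne_zero) |>.mp h5
      linear_combination this
    apply hy
    apply Units.ext
    rw [lam_val, h7]; rfl
  have h4 : ent (u : SL K) 0 1 = 0 := by
    rcases mul_eq_zero.mp h2 with h | h
    · exact absurd h h3
    · exact h
  apply Subtype.ext
  apply sl_ext
  · rw [hu0]; exact ent_one_00.symm
  · rw [h4]; exact ent_one_01.symm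
  · rw [hu1]; exact ent_one_10.symm
  · rw [hu2]; exact ent_one_11.symm

/-- elements of two-power order have trivial diagonal part -/
lemma lam_eq_one_of_pow {u : borel K} {k : ℕ} (h : u ^ 2 ^ k = 1) : lam K u = 1 := by
  have h1 : (lam K u) ^ 2 ^ k = 1 := by rw [← map_pow, h, map_one]
  have h2 : ((lam K u : Kˣ) : K) ^ 2 ^ k = 1 := by
    have := congrArg (fun z : Kˣ => (z : K)) h1
    simpa using this
  have h3 : (((lam K u : Kˣ) : K) - 1) ^ 2 ^ k = 0 := by
    rw [sub_pow_char_pow, h2, one_pow, sub_self]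
  have h4 := pow_eq_zero_iff (pow_ne_zero k two_ne_zero) |>.mp h3
  apply Units.ext
  rw [Units.val_one]
  linear_combination h4

/-- the trace -/
def tr (g : SL K) : K := ent g 0 0 + ent g 1 1

/-- Cayley-Hamilton consequence: a matrix of trace zero is an involution. -/
lemma sq_eq_one_of_tr {g : SL K} (h : tr g = 0) : g * g = 1 := by
  have hd := sl_det g
  unfold tr at h
  have h6 : (2 : K) = 0 := CharTwo.two_eq_zero
  apply sl_ext
  · rw [ent_mul, ent_one_00]
    linear_combination ent g 0 0 * h - hd - h6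
  · rw [ent_mul, ent_one_01]
    linear_combination ent g 0 1 * h
  · rw [ent_mul, ent_one_10]
    linear_combination ent g 1 0 * h
  · rw [ent_mul, ent_one_11]
    linear_combination ent g 1 1 * h - hd - h6

/-- commuting matrices with the same nonzero trace -/
lemma eq_or_eq_inv {g g' : SL K} (ht : tr g ≠ 0) (hc : g' * g = g * g') (htr : tr g' = tr g) :
    g' = g ∨ g' = g⁻¹ := by
  have h6 : (2 : K) = 0 := CharTwo.two_eq_zero
  have hd := sl_det g
  have hd' := sl_det g'
  have h01 : ent (g' * g) 0 1 = ent (g * g') 0 1 := by rw [hc]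
  have h10 : ent (g' * g) 1 0 = ent (g * g') 1 0 := by rw [hc]
  rw [ent_mul, ent_mul] at h01 h10
  have ht1 : ent g 0 0 + ent g 1 1 ≠ 0 := ht
  have ht2 : ent g' 0 0 + ent g' 1 1 = ent g 0 0 + ent g 1 1 := htr
  have e01 : ent g' 0 1 = ent g 0 1 := by
    have : (ent g 0 0 + ent g 1 1) * (ent g' 0 1 - ent g 0 1) = 0 := by
      linear_combination - h01 - ent g 0 1 * ht2 + (ent g 0 1 * ent g' 0 0 +
        ent g' 0 1 * ent g 1 1 - ent g 0 0 * ent g 0 1 - ent g 1 1 * ent g 0 1) * h6
    rcases mul_eq_zero.mp this with h | h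
    · exact absurd h ht1
    · linear_combination h
  have e10 : ent g' 1 0 = ent g 1 0 := by
    have : (ent g 0 0 + ent g 1 1) * (ent g' 1 0 - ent g 1 0) = 0 := by
      linear_combination h10 - ent g 1 0 * ht2 + (ent g 1 1 * ent g' 1 0 +
        ent g 1 0 * ent g' 0 0 - ent g 0 0 * ent g 1 0 - ent g 1 1 * ent g 1 0) * h6
    rcases mul_eq_zero.mp this with h | h
    · exact absurd h ht1
    · linear_combination h
  have hq : (ent g' 0 0 - ent g 0 0) * (ent g' 0 0 - ent g 1 1) = 0 := by
    rw [e01, e10] at hd'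
    linear_combination ent g' 0 0 * ht2 - hd' + hd
  rcases mul_eq_zero.mp hq with h | h
  · left
    have h0 : ent g' 0 0 = ent g 0 0 := by linear_combination h
    have h1 : ent g' 1 1 = ent g 1 1 := by linear_combination ht2 - h
    exact sl_ext h0 e01 e10 h1
  · right
    have h0 : ent g' 0 0 = ent g 1 1 := by linear_combination h
    have h1 : ent g' 1 1 = ent g 0 0 := by linear_combination ht2 - h
    apply sl_ext
    · rw [ent_inv_00, h0]
    · rw [ent_inv_01, e01, CharTwo.neg_eq]
    · rw [ent_inv_10, e10, CharTwo.neg_eq]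
    · rw [ent_inv_11, h1]

/-- an element inverting a given element -/
lemma exists_inverting {g : SL K} (ht : tr g ≠ 0) : ∃ w : SL K, w * g * w⁻¹ = g⁻¹ := by
  have h6 : (2 : K) = 0 := CharTwo.two_eq_zero
  have key : ∀ w : SL K, w * g = g⁻¹ * w → w * g * w⁻¹ = g⁻¹ := by
    intro w hw
    rw [hw]; group
  by_cases hb : ent g 0 1 = 0
  · by_cases hc : ent g 1 0 = 0
    · refine ⟨mk2 0 1 1 0 (by linear_combination - h6), key _ ?_⟩
      apply sl_ext
      · rw [ent_mul, ent_mul, ent_mk2_00, ent_mk2_01, ent_mk2_10, ent_inv_00, ent_inv_01, hb, hc]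
        ring
      · rw [ent_mul, ent_mul, ent_mk2_00, ent_mk2_01, ent_mk2_11, ent_inv_00, ent_inv_01, hb]
        ring
      · rw [ent_mul, ent_mul, ent_mk2_10, ent_mk2_00, ent_mk2_11, ent_inv_10, ent_inv_11, hc]
        ring
      · rw [ent_mul, ent_mul, ent_mk2_10, ent_mk2_01, ent_mk2_11, ent_inv_10, ent_inv_11, hb, hc]
        ring
    · refine ⟨mk2 1 (tr g / ent g 1 0) 0 1 (by ring), key _ ?_⟩
      have e : tr g / ent g 1 0 * ent g 1 0 = ent g 0 0 + ent g 1 1 := div_mul_cancel₀ _ hc
      apply sl_ext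
      · rw [ent_mul, ent_mul, ent_mk2_00, ent_mk2_01, ent_mk2_10, ent_inv_00, ent_inv_01]
        linear_combination e + ent g 0 0 * h6
      · rw [ent_mul, ent_mul, ent_mk2_00, ent_mk2_01, ent_mk2_11, ent_inv_00, ent_inv_01]
        linear_combination ent g 0 1 * h6
      · rw [ent_mul, ent_mul, ent_mk2_10, ent_mk2_00, ent_mk2_11, ent_inv_10, ent_inv_11]
        linear_combination ent g 1 0 * h6
      · rw [ent_mul, ent_mul, ent_mk2_10, ent_mk2_01, ent_mk2_11, ent_inv_10, ent_inv_11]
        linear_combination e + ent g 1 1 * h6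
  · refine ⟨mk2 1 0 (tr g / ent g 0 1) 1 (by ring), key _ ?_⟩
    have e : tr g / ent g 0 1 * ent g 0 1 = ent g 0 0 + ent g 1 1 := div_mul_cancel₀ _ hb
    apply sl_ext
    · rw [ent_mul, ent_mul, ent_mk2_00, ent_mk2_01, ent_mk2_10, ent_inv_00, ent_inv_01]
      linear_combination e + ent g 0 0 * h6
    · rw [ent_mul, ent_mul, ent_mk2_00, ent_mk2_01, ent_mk2_11, ent_inv_00, ent_inv_01]
      linear_combination ent g 0 1 * h6
    · rw [ent_mul, ent_mul, ent_mk2_10, ent_mk2_00, ent_mk2_11, ent_inv_10, ent_inv_11]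
      linear_combination ent g 1 0 * h6
    · rw [ent_mul, ent_mul, ent_mk2_10, ent_mk2_01, ent_mk2_11, ent_inv_10, ent_inv_11]
      linear_combination e + ent g 1 1 * h6

omit [CharP K 2] in
/-- the trace is a class function -/
lemma tr_conj (n g : SL K) : tr (n * g * n⁻¹) = tr g := by
  have h := sl_det n
  unfold tr
  rw [ent_mul, ent_mul, ent_mul, ent_mul, ent_mul, ent_mul, ent_inv_00, ent_inv_01, ent_inv_10,
    ent_inv_11]
  linear_combination (ent g 0 0 + ent g 1 1) * h

lemma ne_inv_of_tr {g : SL K} (ht : tr g ≠ 0) : g ≠ g⁻¹ := by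
  intro h
  have h6 : (2 : K) = 0 := CharTwo.two_eq_zero
  have h0 : ent g 0 0 = ent g 1 1 := by
    rw [← ent_inv_00, ← h]
  apply ht
  unfold tr
  linear_combination h0 + ent g 1 1 * h6

end chartwo

end Pool.Agent.CoveringSubgroups
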