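import Mathlib

/-!
# Subgroups of regular wreath products
-/

set_option autoImplicit false

namespace Pool.Agent.CoveringSubgroups

open RegularWreathProduct

variable {S X : Type} [Group S] [Group X]

lemma wr_left_mul (a b : S ≀ᵣ X) (c : X) :
    (a * b).left c = a.left c * b.left (a.right⁻¹ * c) := rfl

lemma wr_left_inv (a : S ≀ᵣ X) (c : X) : (a⁻¹).left c = (a.left (a.right * c))⁻¹ := rfl

lemma wr_left_one (c : X) : (1 : S ≀ᵣ X).left c = 1 := rfl

lemma wr_left_conj (m u : S ≀ᵣ X) (hm : m.right = 1) (c : X) :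
    (m * u * m⁻¹).left c = m.left c * u.left c * (m.left (u.right⁻¹ * c))⁻¹ := by
  rw [wr_left_mul, wr_left_mul, wr_left_inv, mul_right, hm, inv_one, one_mul, one_mul, one_mul]

lemma wr_right_conj (m u : S ≀ᵣ X) (hm : m.right = 1) : (m * u * m⁻¹).right = u.right := by
  rw [mul_right, mul_right, inv_right, hm, one_mul, inv_one, mul_one]

/-- The group of first coordinates of the elements of `H` in the base group. -/
def baseD (H : Subgroup (S ≀ᵣ X)) : Subgroup S where
  carrier := {s | ∃ h ∈ H, h.right = 1 ∧ h.left 1 = s}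
  one_mem' := ⟨1, H.one_mem, rfl, rfl⟩
  mul_mem' := by
    rintro a b ⟨h, hh, hr, rfl⟩ ⟨k, hk, kr, rfl⟩
    refine ⟨h * k, H.mul_mem hh hk, ?_, ?_⟩
    · rw [mul_right, hr, kr, one_mul]
    · rw [wr_left_mul, hr, inv_one, one_mul]
  inv_mem' := by
    rintro a ⟨h, hh, hr, rfl⟩
    refine ⟨h⁻¹, H.inv_mem hh, ?_, ?_⟩
    · rw [inv_right, hr, inv_one]
    · rw [wr_left_inv, hr, one_mul]

lemma mem_baseD {H : Subgroup (S ≀ᵣ X)} {s : S} :
    s ∈ baseD H ↔ ∃ h ∈ H, h.right = 1 ∧ h.left 1 = s := Iff.rfl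

/-- The Krasner-Kaloujnine conjugation. -/
lemma exists_conj_baseD (H : Subgroup (S ≀ᵣ X)) (hX : ∀ x : X, ∃ h ∈ H, h.right = x) :
    ∃ m : S ≀ᵣ X, m.right = 1 ∧ ∀ h ∈ H, ∀ c, (m * h * m⁻¹).left c ∈ baseD H := by
  choose t ht htr using hX
  refine ⟨⟨fun c => ((t c).left c)⁻¹, 1⟩, rfl, ?_⟩
  intro h hh c
  rw [wr_left_conj _ _ rfl]
  refine ⟨(t c)⁻¹ * h * t (h.right⁻¹ * c), H.mul_mem (H.mul_mem (H.inv_mem (ht c)) hh) (ht _), ?_,
    ?_⟩
  · rw [mul_right, mul_right, inv_right, htr, htr]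
    group
  · rw [wr_left_mul, wr_left_mul, wr_left_inv, mul_right, inv_right, htr, mul_one]
    change ((t c).left c)⁻¹ * h.left (c⁻¹⁻¹ * 1) * _ =
      ((t c).left c)⁻¹ * h.left c * (((t (h.right⁻¹ * c)).left (h.right⁻¹ * c))⁻¹)⁻¹
    rw [inv_inv, mul_one, inv_inv]
    congr 2
    group

/-- The elements of the wreath product all of whose coordinates are in `W`. -/
def coordSub (X : Type) [Group X] (W : Subgroup S) : Subgroup (S ≀ᵣ X) where
  carrier := {u | ∀ c, u.left c ∈ W}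
  one_mem' := fun _ => W.one_mem
  mul_mem' := by
    intro a b ha hb c
    rw [wr_left_mul]
    exact W.mul_mem (ha _) (hb _)
  inv_mem' := by
    intro a ha c
    rw [wr_left_inv]
    exact W.inv_mem (ha _)

lemma mem_coordSub {W : Subgroup S} {u : S ≀ᵣ X} : u ∈ coordSub X W ↔ ∀ c, u.left c ∈ W := Iff.rfl

/-- Applying a homomorphism to all coordinates. -/
def coordMap {C : Type} [Group C] {W : Subgroup S} (θ : W →* C) : coordSub X W →* C ≀ᵣ X where
  toFun u := ⟨fun c => θ ⟨(u : S ≀ᵣ X).left c, u.2 c⟩, (u : S ≀ᵣ X).right⟩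
  map_one' := by
    ext c
    · exact map_one θ
    · rfl
  map_mul' u v := by
    ext c
    · exact map_mul θ ⟨(u : S ≀ᵣ X).left c, u.2 c⟩
        ⟨(v : S ≀ᵣ X).left ((u : S ≀ᵣ X).right⁻¹ * c), v.2 _⟩
    · rfl

lemma coordMap_left {C : Type} [Group C] {W : Subgroup S} (θ : W →* C) (u : coordSub X W) (c : X) :
    (coordMap θ u).left c = θ ⟨(u : S ≀ᵣ X).left c, u.2 c⟩ := rfl

lemma coordMap_right {C : Type} [Group C] {W : Subgroup S} (θ : W →* C) (u : coordSub X W) :
    (coordMap θ u).right = (u : S ≀ᵣ X).right := rfl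

lemma coordMap_surjective {C : Type} [Group C] {W : Subgroup S} (θ : W →* C)
    (hθ : Function.Surjective θ) : Function.Surjective (coordMap (X := X) θ) := by
  intro w
  choose g hg using hθ
  refine ⟨⟨⟨fun c => (g (w.left c) : S), w.right⟩, fun c => (g (w.left c)).2⟩, ?_⟩
  ext c
  · exact hg _
  · rfl

/-- The product of all coordinates. -/
def coordProd {C : Type} [CommGroup C] [Fintype X] : C ≀ᵣ X →* C where
  toFun w := ∏ c, w.left c
  map_one' := by
    apply Finset.prod_eq_one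
    intro c _
    rfl
  map_mul' v w := by
    have h : ∏ c, w.left (v.right⁻¹ * c) = ∏ c, w.left c :=
      Fintype.prod_equiv (Equiv.mulLeft v.right⁻¹) _ _ (fun _ => rfl)
    rw [← h, ← Finset.prod_mul_distrib]
    rfl

lemma coordProd_apply {C : Type} [CommGroup C] [Fintype X] (w : C ≀ᵣ X) :
    coordProd w = ∏ c, w.left c := rfl

lemma coordProd_surjective {C : Type} [CommGroup C] [Fintype X] :
    Function.Surjective (coordProd (C := C) (X := X)) := by
  classical
  intro z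
  refine ⟨⟨Pi.mulSingle 1 z, 1⟩, ?_⟩
  rw [coordProd_apply]
  change ∏ c, (Pi.mulSingle (1 : X) z : X → C) c = z
  exact Fintype.prod_pi_mulSingle' (1 : X) z

end Pool.Agent.CoveringSubgroups
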